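import Pool.Agent.SYS.PX.Defs
import Pool.Agent.SYS.Lib.Evt
import Pool.Agent.SYS.XP.Defs
import Pool.Agent.SYS.SH.Defs

/-!
# Project SYS (MP_650813_pr, S*), block CH: chains of blocks with closings (definitions).  DO NOT CHANGE.

* `Blk`: a block rule for all finite sets of darts, in the form of `PX/Defs`: `nxt X f` = the rule with the base `X` and the gate `f`;
  `K` = bound of the number of steps.  `Cpl`, `Act`: ends of the block, and nodes which are not ends, with their gate `d`.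
* `Sc c X F`: connected region with `c + 1` holes and genus `0`, `F` hidden faces (`c = 0, 1`).
* `m : Fin τ → D`: targets; `Gl m c X`: goal reached (all targets revealed, `c ≥ 2 - τ`).
* In a triangulation `T` the block at `(X, f)` ends: `PE` planar, `NE` first gluing inside a hole (connected hidden part), `TE c` terminal event
  (separation; for `c = 1` also a second gluing).
* `Ch J c s v X f`: there is a chain of at most `J` blocks with progress `v` and at most `s` jumps (after a planar block: any boundary dart is the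
  next gate; used when a new target is reached).  `Z J c s X f`: sum over these chains of `exp (- κ progress)`.
* `wtF x n F b`: weight of a region with `F` hidden faces and `b` boundary darts.
-/

namespace SYS.CH

open Classical SST SYS.Num

/-- A block rule. -/
structure Blk where
  nxt : ∀ {D : Type} [Finite D], Part D → D → Part D → Option D
  K : ℕ

section
variable {D : Type} [Finite D]

/-- End of the block at `X`, `f`. -/
def Cpl (B : Blk) (X : Part D) (f : D) (q : List Stp × Part D × D) : Prop := Part.BEnd (B.nxt X f) X f q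

/-- Node of the block at `X`, `f` with the next gate `d`. -/
def Act (B : Blk) (X : Part D) (f : D) (q : List Stp × Part D × D) (d : D) : Prop :=
  Part.BR (B.nxt X f) X f q.1 q.2.1 q.2.2 ∧ B.nxt X f q.2.1 = some d ∧ d ∈ q.2.1.B ∧ q.2.1.s.SameCycle q.2.2 d

/-- Connected regions with `c + 1` holes, genus `0`, `F` hidden faces (`κ = c`). -/
def Sc (c : ℕ) (X : Part D) (F : ℕ) : Prop := X.Con ∧ ∃ l P, X.Typ l P F c ∧ l.length = c + 1

/-- Goal. -/
def Gl {τ : ℕ} (m : Fin τ → D) (c : ℕ) (X : Part D) : Prop := 2 ≤ c + τ ∧ ∀ i, m i ∈ X.R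

/-- Terminal event at the gate `y` of `Y`. -/
def Tm (c : ℕ) (T : Tri D) (Y : Part D) (y : D) : Prop :=
  (∃ u v, Y.Sep T y u v) ∨ (c = 1 ∧ ((∃ u v, Y.NSt T y u v) ∨ Y.Mrg T y))

/-- The block ends planar at `X'`. -/
def PE (B : Blk) (T : Tri D) (X : Part D) (f : D) (X' : Part D) : Prop :=
  ∃ w x', Cpl B X f (w, X', x') ∧ X'.Le T ∧ X'.HConn T

/-- The block ends by a gluing inside a hole with connected hidden part. -/
def NE (B : Blk) (T : Tri D) (X : Part D) (f : D) (X' : Part D) : Prop :=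
  ∃ (w : List Stp) (Y : Part D) (z y : D), Act B X f (w, Y, z) y ∧ Y.Le T ∧ Y.HConn T ∧
    ∃ (u v : List D) (hx : y ∈ Y.B) (hy : T.a y ∈ Y.B), Y.NSt T y u v ∧ X' = Y.glue y (T.a y) hx hy

/-- The block ends by a terminal event. -/
def TE (B : Blk) (c : ℕ) (T : Tri D) (X : Part D) (f : D) : Prop :=
  ∃ (w : List Stp) (Y : Part D) (z y : D), Act B X f (w, Y, z) y ∧ Y.Le T ∧ Y.HConn T ∧ Tm c T Y y

/-- There is a chain of at most `J` blocks with progress `v` and at most `s` jumps which ends at the goal or by a terminal event. -/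
inductive Ch (B : Blk) (pr : ℕ → ℝ) {τ : ℕ} (m : Fin τ → D) (T : Tri D) : ℕ → ℕ → ℕ → ℝ → Part D → D → Prop
  | fin {J c s : ℕ} {X : Part D} {f : D} (h : TE B c T X f) : Ch B pr m T (J + 1) c s 0 X f
  | plg {J c s : ℕ} {X : Part D} {f : D} {X' : Part D} (h : PE B T X f X') (hg : Gl m c X') : Ch B pr m T (J + 1) c s 0 X f
  | pl {J c s : ℕ} {v : ℝ} {X : Part D} {f : D} {X' : Part D} {e : D} (h : PE B T X f X') (he : e ∈ X'.B) (he' : e ∉ X.B)
      (hc : Ch B pr m T J c s v X' e) : Ch B pr m T (J + 1) c s (pr (X.per f) + v) X f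
  | jp {J c s : ℕ} {v : ℝ} {X : Part D} {f : D} {X' : Part D} {e : D} (h : PE B T X f X') (he : e ∈ X'.B)
      (hc : Ch B pr m T J c s v X' e) : Ch B pr m T (J + 1) c (s + 1) v X f
  | nsg {J s : ℕ} {X : Part D} {f : D} {X' : Part D} (h : NE B T X f X') (hg : Gl m 1 X') : Ch B pr m T (J + 1) 0 s 0 X f
  | ns {J s : ℕ} {v : ℝ} {X : Part D} {f : D} {X' : Part D} {e : D} (h : NE B T X f X') (he : e ∈ X'.B)
      (hc : Ch B pr m T J 1 s v X' e) : Ch B pr m T (J + 1) 0 s v X f

end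

noncomputable instance {D : Type} [Finite D] : Fintype (Part D) := Fintype.ofFinite _

/-- Sum over the chains. -/
noncomputable def Z {D : Type} [Fintype D] (B : Blk) (κ : ℝ) (pr : ℕ → ℝ) {τ : ℕ} (m : Fin τ → D) (T : Tri D) :
    ℕ → ℕ → ℕ → Part D → D → ℝ
  | 0, _, _, _, _ => 0
  | J + 1, c, s, X, f =>
    (∑ X' : Part D, if PE B T X f X' then
      (if Gl m c X' then 1 else
        Real.exp (-(κ * pr (X.per f))) * (∑ e : D, if e ∈ X'.B ∧ e ∉ X.B then Z B κ pr m T J c s X' e else 0) +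
        (if s = 0 then 0 else ∑ e : D, if e ∈ X'.B then Z B κ pr m T J c (s - 1) X' e else 0)) else 0) +
    (∑ X' : Part D, if c = 0 ∧ NE B T X f X' then
      (if Gl m 1 X' then 1 else ∑ e : D, if e ∈ X'.B then Z B κ pr m T J 1 s X' e else 0) else 0) +
    (if TE B c T X f then 1 else 0)

/-- Weight of a region with `F` hidden faces and `b` boundary darts, in a triangulation with `2 n` faces. -/
noncomputable def wtF (x : ℝ) (n F b : ℕ) : ℝ :=
  ((3 * F).factorial : ℝ) * AA x ^ b * Real.sqrt (yy x) ^ ((2 * n : ℤ) - F - b)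

/-- Assumption on the block. -/
structure Blk.Ok (B : Blk) : Prop where
  st : ∀ {D : Type} [Finite D] (X : Part D) (f : D), f ∈ X.B → B.nxt X f X = some f
  len : ∀ {D : Type} [Finite D] (X : Part D) (f : D) (q : List Stp × Part D × D) (d : D), f ∈ X.B → Act B X f q d →
    q.1.length < B.K

/-- Good triangulations: regions with short boundary are small. -/
def Gd {n : ℕ} (g Pm Vm : ℕ) (T : Tri (Fin (6 * n))) : Prop := T ∈ Trn n g ∧
  ∀ (c F : ℕ) (X : Part (Fin (6 * n))), c ≤ 1 → Sc c X F → X.Le T → X.HConn T → X.B.ncard ≤ Pm → 2 * n ≤ F + Vm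

/-- Numerical input for the first moment. -/
structure Inp (n g : ℕ) (x κ : ℝ) (B : Blk) (pr V : ℕ → ℝ) (V1 : ℝ) (Pm Vm τ : ℕ) (N0 : ℝ) : Prop where
  v1 : ∀ p, 1 ≤ V p ∧ V p ≤ V1
  n0 : 0 ≤ N0
  ex : ∀ (X : Part (Fin (6 * n))) (f : Fin (6 * n)) (l : List (Fin (6 * n))) (p : ℕ) (P : List ℕ) (F c : ℕ),
    X.Typ (f :: l) (p :: P) F c → 2 * n ≤ F + Vm → p + P.sum ≤ Pm →
    ∀ Q : Finset (List Stp × Part (Fin (6 * n)) × Fin (6 * n)), (∀ q ∈ Q, Cpl B X f q) →
      ∑ q ∈ Q, Part.nwt x F q.1 * ∑ e : Fin (6 * n), (if e ∈ q.2.1.B ∧ e ∉ X.B then V (q.2.1.per e) else 0) ≤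
        Real.exp (κ * pr p) * V p
  goal : ∀ (c F : ℕ) (X : Part (Fin (6 * n))), c ≤ 1 → 2 ≤ c + τ → Sc c X F → 2 * n ≤ F + Vm → X.B.ncard ≤ Pm →
    (X.R.ncard : ℝ) ^ τ * ({T | T ∈ X.Ext g ∧ X.HConn T}.ncard : ℝ) ≤ N0 * wtF x n F X.B.ncard
  term : ∀ (c F : ℕ) (Y : Part (Fin (6 * n))) (y : Fin (6 * n)), c ≤ 1 → Sc c Y F → y ∈ Y.B → 2 * n ≤ F + Vm →
    Y.B.ncard ≤ Pm → ((6 * n : ℕ) : ℝ) ^ τ * ({T | T ∈ Y.Ext g ∧ Y.HConn T ∧ Tm c T Y y}.ncard : ℝ) ≤ N0 * wtF x n F Y.B.ncard

/-- The constants of the first moment (`d` = number of special events which are still possible: jumps and the first gluing). -/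
noncomputable def GG (K Pm : ℕ) (V1 : ℝ) (d J : ℕ) : ℝ := (J * ((1 + K) * (1 + Pm) * (1 + Pm * V1))) ^ (d + 1)

end SYS.CH
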