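import Pool.Agent.SYS.CH.Upr

/-!
# SYS-CH-Cnt: number of triangulations with a chain (interchange of sums, `z_ge`, `gt_le`, `upper`)
-/

namespace SYS.CH

open Classical SST SYS.Num

variable {n g Pm Vm τ : ℕ} {B : Blk} {x κ : ℝ} {pr V : ℕ → ℝ} {V1 N0 : ℝ}

/-- goal or chain -/
private noncomputable def cntPhi (B : Blk) (κ : ℝ) (pr : ℕ → ℝ) (τ J c : ℕ) (X : Part (Fin (6 * n)))
    (m : Fin τ → Fin (6 * n)) (T : Tri (Fin (6 * n))) : ℝ :=
  (if Gl m c X then 1 else 0) + ∑ f : Fin (6 * n), (if f ∈ X.B then Z B κ pr m T J c τ X f else 0)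

private theorem cntPhi_sum_nonneg (B : Blk) (κ : ℝ) (pr : ℕ → ℝ) (τ J c : ℕ) (X : Part (Fin (6 * n)))
    (m : Fin τ → Fin (6 * n)) (T : Tri (Fin (6 * n))) (f : Fin (6 * n)) :
    0 ≤ (if f ∈ X.B then Z B κ pr m T J c τ X f else 0) := by
  split_ifs
  · exact z_nonneg _ _ _ _ _
  · exact le_refl _

private theorem cntPhi_nonneg (B : Blk) (κ : ℝ) (pr : ℕ → ℝ) (τ J c : ℕ) (X : Part (Fin (6 * n)))
    (m : Fin τ → Fin (6 * n)) (T : Tri (Fin (6 * n))) : 0 ≤ cntPhi B κ pr τ J c X m T := by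
  unfold cntPhi
  refine add_nonneg ?_ (Finset.sum_nonneg fun f _ => cntPhi_sum_nonneg B κ pr τ J c X m T f)
  split_ifs
  · exact zero_le_one
  · exact le_refl _

private theorem cntPhi_ge (hκ : 0 ≤ κ) (hpr : ∀ p, 0 ≤ pr p) {J c : ℕ} {b : ℝ} (hb : 0 ≤ b) {X : Part (Fin (6 * n))}
    {m : Fin τ → Fin (6 * n)} {T : Tri (Fin (6 * n))}
    (h : Gl m c X ∨ ∃ f ∈ X.B, ∃ v ≤ b, Ch B pr m T J c τ v X f) : Real.exp (-(κ * b)) ≤ cntPhi B κ pr τ J c X m T := by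
  unfold cntPhi
  rcases h with h | ⟨f, hf, v, hv, h⟩
  · rw [if_pos h]
    have h1 : Real.exp (-(κ * b)) ≤ 1 := by
      rw [Real.exp_le_one_iff]
      have := mul_nonneg hκ hb
      linarith
    have h2 := Finset.sum_nonneg fun f (_ : f ∈ (Finset.univ : Finset (Fin (6 * n)))) =>
      cntPhi_sum_nonneg B κ pr τ J c X m T f
    linarith
  · have h1 : Real.exp (-(κ * b)) ≤ Real.exp (-(κ * v)) := by
      rw [Real.exp_le_exp]
      have := mul_le_mul_of_nonneg_left hv hκ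
      linarith
    have h2 := z_ge hκ hpr h
    have h3 := Finset.single_le_sum (f := fun f => if f ∈ X.B then Z B κ pr m T J c τ X f else 0)
      (fun f _ => cntPhi_sum_nonneg B κ pr τ J c X m T f) (Finset.mem_univ f)
    rw [if_pos hf] at h3
    have h4 : (0 : ℝ) ≤ (if Gl m c X then 1 else 0) := by
      split_ifs
      · exact zero_le_one
      · exact le_refl _
    linarith

private theorem cntPhi_sum (g Pm Vm : ℕ) (B : Blk) (κ : ℝ) (pr : ℕ → ℝ) (τ J c : ℕ) (X : Part (Fin (6 * n))) :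
    ∑ m : Fin τ → Fin (6 * n), ∑ T ∈ AX g Pm Vm X, cntPhi B κ pr τ J c X m T =
      GT g Pm Vm τ c X + ∑ f : Fin (6 * n), (if f ∈ X.B then SS g Pm Vm τ B κ pr J c τ X f else 0) := by
  unfold cntPhi GT SS
  have h1 : ∀ f : Fin (6 * n), (if f ∈ X.B then ∑ m : Fin τ → Fin (6 * n), ∑ T ∈ AX g Pm Vm X, Z B κ pr m T J c τ X f else 0) =
      ∑ m : Fin τ → Fin (6 * n), ∑ T ∈ AX g Pm Vm X, (if f ∈ X.B then Z B κ pr m T J c τ X f else 0) := by
    intro f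
    split_ifs
    · rfl
    · simp
  have h2 : ∑ f : Fin (6 * n), ∑ m : Fin τ → Fin (6 * n), ∑ T ∈ AX g Pm Vm X,
      (if f ∈ X.B then Z B κ pr m T J c τ X f else 0) =
      ∑ m : Fin τ → Fin (6 * n), ∑ T ∈ AX g Pm Vm X, ∑ f : Fin (6 * n), (if f ∈ X.B then Z B κ pr m T J c τ X f else 0) := by
    rw [Finset.sum_comm]
    refine Finset.sum_congr rfl fun m _ => ?_
    rw [Finset.sum_comm]
  rw [Finset.sum_congr rfl fun f _ => h1 f, h2, ← Finset.sum_add_distrib]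
  refine Finset.sum_congr rfl fun m _ => ?_
  rw [← Finset.sum_add_distrib]

private theorem cnt_X (hI : Inp n g x κ B pr V V1 Pm Vm τ N0) (hx : 0 < x) (hB : B.Ok) (J c : ℕ) (hc : c ≤ 1) (h1 : 1 ≤ V1)
    {X : Part (Fin (6 * n))} (hX : (∃ F, Sc c X F) ∧ X.B.ncard + B.K * J ≤ Pm) :
    GT g Pm Vm τ c X + ∑ f : Fin (6 * n), (if f ∈ X.B then SS g Pm Vm τ B κ pr J c τ X f else 0) ≤
      (1 + Pm * V1 * GG B.K Pm V1 (τ + 1 - c) J) * N0 * Wt x X := by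
  obtain ⟨⟨F, hS⟩, hb⟩ := hX
  have hb' : X.B.ncard ≤ Pm := by omega
  have hG := gg_nonneg (K := B.K) (Pm := Pm) h1 (τ + 1 - c) J
  have hN := hI.n0
  have hW := wt_pos hx X
  have e1 := gt_le hI hx hc hS hb'
  have e2 : ∀ f : Fin (6 * n), (if f ∈ X.B then SS g Pm Vm τ B κ pr J c τ X f else 0) ≤
      (if f ∈ X.B then GG B.K Pm V1 (τ + 1 - c) J * V1 * Wt x X * N0 else 0) := by
    intro f
    split_ifs with hf
    · refine (upper hI hx hB J c τ F hc hS hf hb).trans ?_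
      exact mul_le_mul_of_nonneg_right (mul_le_mul_of_nonneg_right
        (mul_le_mul_of_nonneg_left (hI.v1 _).2 hG) hW.le) hN
    · exact le_refl _
  have e3 := Finset.sum_le_sum fun f (_ : f ∈ (Finset.univ : Finset (Fin (6 * n)))) => e2 f
  rw [← Finset.sum_filter (s := Finset.univ) (p := fun f => f ∈ X.B)
    (f := fun _ => GG B.K Pm V1 (τ + 1 - c) J * V1 * Wt x X * N0), Finset.sum_const, nsmul_eq_mul] at e3
  have e4 : (Finset.univ.filter (fun f => f ∈ X.B)).card ≤ Pm := by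
    refine le_trans ?_ hb'
    rw [← Set.ncard_coe_finset]
    refine Set.ncard_le_ncard ?_ (Set.toFinite _)
    intro e he
    rw [Finset.mem_coe, Finset.mem_filter] at he
    exact he.2
  have e5 : ((Finset.univ.filter (fun f => f ∈ X.B)).card : ℝ) ≤ Pm := by exact_mod_cast e4
  have hV1 : 0 ≤ V1 := le_trans zero_le_one h1
  have e6 : 0 ≤ GG B.K Pm V1 (τ + 1 - c) J * V1 * Wt x X * N0 := by positivity
  have e7 := mul_le_mul_of_nonneg_right e5 e6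
  calc GT g Pm Vm τ c X + ∑ f : Fin (6 * n), (if f ∈ X.B then SS g Pm Vm τ B κ pr J c τ X f else 0) ≤
      N0 * Wt x X + Pm * (GG B.K Pm V1 (τ + 1 - c) J * V1 * Wt x X * N0) := add_le_add e1 (e3.trans e7)
    _ = _ := by ring

theorem count (hI : Inp n g x κ B pr V V1 Pm Vm τ N0) (hx : 0 < x) (hκ : 0 ≤ κ) (hpr : ∀ p, 0 ≤ pr p) (hB : B.Ok) (J c : ℕ)
    (hc : c ≤ 1) (𝒳 : Finset (Part (Fin (6 * n)))) (h𝒳 : ∀ X ∈ 𝒳, (∃ F, Sc c X F) ∧ X.B.ncard + B.K * J ≤ Pm) (b : ℝ) (hb : 0 ≤ b) :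
    (({q : Tri (Fin (6 * n)) × (Fin τ → Fin (6 * n)) | Gd g Pm Vm q.1 ∧ ∃ X ∈ 𝒳, X.Le q.1 ∧ X.HConn q.1 ∧
      (Gl q.2 c X ∨ ∃ f ∈ X.B, ∃ v ≤ b, Ch B pr q.2 q.1 J c τ v X f)}.ncard : ℕ) : ℝ) ≤
      Real.exp (κ * b) * ((1 + Pm * V1 * GG B.K Pm V1 (τ + 1 - c) J) * N0 * ∑ X ∈ 𝒳, Wt x X) := by
  have h1 : 1 ≤ V1 := (hI.v1 0).1.trans (hI.v1 0).2
  obtain ⟨Q, hQ⟩ : ∃ Q : Set (Tri (Fin (6 * n)) × (Fin τ → Fin (6 * n))),
      Q = {q : Tri (Fin (6 * n)) × (Fin τ → Fin (6 * n)) | Gd g Pm Vm q.1 ∧ ∃ X ∈ 𝒳, X.Le q.1 ∧ X.HConn q.1 ∧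
      (Gl q.2 c X ∨ ∃ f ∈ X.B, ∃ v ≤ b, Ch B pr q.2 q.1 J c τ v X f)} := ⟨_, rfl⟩
  rw [← hQ]
  obtain ⟨Qf, hQf⟩ : ∃ Qf : Finset (Tri (Fin (6 * n)) × (Fin τ → Fin (6 * n))), Qf = (Set.toFinite Q).toFinset := ⟨_, rfl⟩
  have hmem : ∀ q, q ∈ Qf ↔ q ∈ Q := by
    intro q
    rw [hQf, Set.Finite.mem_toFinset]
  have hcard : Q.ncard = Qf.card := by
    rw [hQf]
    exact Set.ncard_eq_toFinset_card Q (Set.toFinite Q)
  rw [hcard]
  have key : ∀ q ∈ Qf, Real.exp (-(κ * b)) ≤ ∑ X ∈ 𝒳, (if q.1 ∈ AX g Pm Vm X then cntPhi B κ pr τ J c X q.2 q.1 else 0) := by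
    intro q hq
    rw [hmem, hQ] at hq
    obtain ⟨hG, X, hX, hL, hH, h⟩ := hq
    have h2 := cntPhi_ge (κ := κ) hκ hpr hb h
    have h3 := Finset.single_le_sum (f := fun X => if q.1 ∈ AX g Pm Vm X then cntPhi B κ pr τ J c X q.2 q.1 else 0)
      (s := 𝒳) (fun X _ => by
        split_ifs
        · exact cntPhi_nonneg B κ pr τ J c X q.2 q.1
        · exact le_refl _) hX
    rw [if_pos (mem_AX.2 ⟨hG, hL, hH⟩)] at h3
    exact h2.trans h3
  have h2 := Finset.sum_le_sum key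
  rw [Finset.sum_const, nsmul_eq_mul, Finset.sum_comm] at h2
  have h3 : ∀ X ∈ 𝒳, ∑ q ∈ Qf, (if q.1 ∈ AX g Pm Vm X then cntPhi B κ pr τ J c X q.2 q.1 else 0) ≤
      (1 + Pm * V1 * GG B.K Pm V1 (τ + 1 - c) J) * N0 * Wt x X := by
    intro X hX
    refine le_trans ?_ (cnt_X hI hx hB J c hc h1 (h𝒳 X hX))
    rw [← cntPhi_sum, ← Finset.sum_product_right' (AX g Pm Vm X) Finset.univ (fun T m => cntPhi B κ pr τ J c X m T),
      ← Finset.sum_filter]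
    refine Finset.sum_le_sum_of_subset_of_nonneg ?_ fun q _ _ => cntPhi_nonneg B κ pr τ J c X q.2 q.1
    intro q hq
    rw [Finset.mem_filter] at hq
    exact Finset.mem_product.2 ⟨hq.2, Finset.mem_univ _⟩
  have h4 := h2.trans (Finset.sum_le_sum h3)
  rw [← Finset.mul_sum] at h4
  have h5 : Real.exp (κ * b) * Real.exp (-(κ * b)) = 1 := by
    rw [← Real.exp_add, add_neg_cancel, Real.exp_zero]
  have h6 := mul_le_mul_of_nonneg_left h4 (Real.exp_pos (κ * b)).le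
  calc (Qf.card : ℝ) = Real.exp (κ * b) * (Qf.card * Real.exp (-(κ * b))) := by
        rw [mul_left_comm, h5, mul_one]
    _ ≤ _ := h6

end SYS.CH
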