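import Pool.Agent.SYS.CH.Nod
import Pool.Agent.SYS.PX.Nwe

/-!
# SYS-CH-NodW: the weight of a region
-/

namespace SYS.CH

open Classical SST SYS.Num

variable {n : ℕ}

/-- Weight of a region. -/
noncomputable def Wt (x : ℝ) (X : Part (Fin (6 * n))) : ℝ := wtF x n ((6 * n - X.R.ncard) / 3) X.B.ncard

private theorem nw_A (x : ℝ) : 0 < AA x := by
  have := AA_gt x
  linarith

private theorem nw_s (x : ℝ) : 0 < Real.sqrt (yy x) := Real.sqrt_pos.2 (yy_pos x)

private theorem nw_le (w : List Stp) : ∀ p, wend p w ≤ p + wvol w := by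
  induction w with
  | nil =>
    intro p
    rw [wend_nil]
    omega
  | cons s w ih =>
    intro p
    have h1 := ih (s.nx p)
    rw [wend_cons, wvol_cons]
    have h2 : s.nx p ≤ p + s.vol := by
      cases s with
      | T => exact le_rfl
      | L k a =>
        show p - (k + 2) ≤ p + a
        omega
      | R k a =>
        show p - (k + 2) ≤ p + a
        omega
    omega

theorem wt_pos {x : ℝ} (hx : 0 < x) (X : Part (Fin (6 * n))) : 0 < Wt x X := by
  have _ := hx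
  unfold Wt wtF
  refine mul_pos (mul_pos ?_ (pow_pos (nw_A x) _)) (zpow_pos (nw_s x) _)
  exact_mod_cast Nat.factorial_pos _

private theorem nw_F {l : List (Fin (6 * n))} {P : List ℕ} {F κ : ℕ} {X : Part (Fin (6 * n))}
    (hX : X.Typ l P F κ) : (6 * n - X.R.ncard) / 3 = F := by
  have h1 := hX.vol
  rw [Nat.card_eq_fintype_card, Fintype.card_fin] at h1
  omega

theorem wt_eq {c F : ℕ} {x : ℝ} {X : Part (Fin (6 * n))} (hX : Sc c X F) : Wt x X = wtF x n F X.B.ncard := by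
  obtain ⟨_, l, P, h1, _⟩ := hX
  unfold Wt
  rw [nw_F h1]

theorem wt_node {c F : ℕ} {x : ℝ} (hx : 0 < x) {b : Part (Fin (6 * n)) → Option (Fin (6 * n))} {X Y : Part (Fin (6 * n))}
    {f z : Fin (6 * n)} {w : List Stp} (hX : Sc c X F) (hf : f ∈ X.B) (h : Part.BR b X f w Y z) :
    Wt x Y = Part.nwt x F w * Wt x X := by
  obtain ⟨l, P, _, hT, hB⟩ := sc_typ hX hf
  obtain ⟨_, F', hF', hY⟩ := br_typ hT h
  have hBY := typ_B hY
  rw [List.sum_cons] at hBY
  rw [wt_eq hX, ← hB]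
  unfold Wt
  rw [nw_F hY, hBY]
  have hru := Part.rb_rul b [] X f hf
  have hT' := Part.typ_repl hT hru.1 hru.2
  have hr := Part.br_rchg (h := []) h
  have hcl := Part.nwt_cl hx (Part.rb_rul b) hT' hr
  have hpar := Part.rchg_par (Part.rb_rul b) hT' hr
  have hle := nw_le w (X.per f)
  obtain ⟨p, hp⟩ : ∃ p, X.per f = p := ⟨_, rfl⟩
  rw [hp] at hcl hpar hle ⊢
  obtain ⟨m, hm⟩ : ∃ m, (wvol w + p - wend p w) / 2 = m := ⟨_, rfl⟩
  rw [hm] at hcl
  have h2m : wvol w + p = wend p w + 2 * m := by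
    rw [Nat.even_iff] at hpar
    omega
  unfold wtF
  have hs := nw_s x
  have e1 : (2 * n : ℤ) - F' - ((wend p w + P.sum : ℕ) : ℤ) =
      ((2 * m : ℕ) : ℤ) + ((2 * n : ℤ) - F - ((p + P.sum : ℕ) : ℤ)) := by
    push_cast
    omega
  have e2 : (((3 * F).factorial : ℕ) : ℝ) = (((3 * F').factorial : ℕ) : ℝ) *
      (((3 * F).descFactorial (3 * wvol w) : ℕ) : ℝ) := by
    rw [← Nat.cast_mul, ← Nat.factorial_mul_descFactorial (n := 3 * F) (k := 3 * wvol w) (by omega)]
    congr 3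
    omega
  rw [e1, zpow_add₀ hs.ne', zpow_natCast, pow_mul, Real.sq_sqrt (yy_pos x).le, e2, pow_add, pow_add]
  linear_combination -((((3 * F').factorial : ℕ) : ℝ) * AA x ^ P.sum *
    Real.sqrt (yy x) ^ ((2 * n : ℤ) - F - ((p + P.sum : ℕ) : ℤ))) * hcl

end SYS.CH
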