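import Pool.Agent.SYS.CH.Exc

/-!
# SYS-CH-BdA: goal and terminal event

If there is a good triangulation which contains the region then `2 n ≤ F + Vm`, and the bounds are the two
numerical inputs.
-/

namespace SYS.CH

open Classical SST SYS.Num

variable {n g Pm Vm τ : ℕ} {B : Blk} {x κ : ℝ} {pr V : ℕ → ℝ} {V1 N0 : ℝ} {c F : ℕ} {X : Part (Fin (6 * n))} {f : Fin (6 * n)}

private theorem bda_F (hc : c ≤ 1) (hS : Sc c X F) (hb : X.B.ncard ≤ Pm) {T : Tri (Fin (6 * n))}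
    (hT : T ∈ AX g Pm Vm X) : 2 * n ≤ F + Vm := by
  obtain ⟨h1, h2, h3⟩ := mem_AX.1 hT
  exact h1.2 c F X hc hS h2 h3 hb

private theorem bda_ext {T : Tri (Fin (6 * n))} (hT : T ∈ AX g Pm Vm X) : T ∈ X.Ext g ∧ X.HConn T := by
  obtain ⟨h1, h2, h3⟩ := mem_AX.1 hT
  exact ⟨⟨h1.1, h2⟩, h3⟩

private theorem bda_card (A : Set (Fin (6 * n))) (τ : ℕ) :
    (Finset.univ.filter fun m : Fin τ → Fin (6 * n) => ∀ i, m i ∈ A).card = A.ncard ^ τ := by
  have h1 : (Finset.univ.filter fun m : Fin τ → Fin (6 * n) => ∀ i, m i ∈ A) =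
      Fintype.piFinset fun _ : Fin τ => (Set.toFinite A).toFinset := by
    ext m
    rw [Finset.mem_filter, Fintype.mem_piFinset]
    constructor
    · intro h i
      rw [Set.Finite.mem_toFinset]
      exact h.2 i
    · intro h
      refine ⟨Finset.mem_univ _, fun i => ?_⟩
      have h2 := h i
      rw [Set.Finite.mem_toFinset] at h2
      exact h2
  rw [h1, Fintype.card_piFinset, Finset.prod_const, Finset.card_univ, Fintype.card_fin,
    ← Set.ncard_eq_toFinset_card A (Set.toFinite A)]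

theorem gt_le (hI : Inp n g x κ B pr V V1 Pm Vm τ N0) (hx : 0 < x) (hc : c ≤ 1) (hS : Sc c X F) (hb : X.B.ncard ≤ Pm) :
    GT g Pm Vm τ c X ≤ N0 * Wt x X := by
  have h0 : 0 ≤ N0 * Wt x X := mul_nonneg hI.n0 (wt_pos hx X).le
  unfold GT
  rcases (AX g Pm Vm X).eq_empty_or_nonempty with he | ⟨T, hT⟩
  · rw [he]
    simpa using h0
  by_cases h2 : 2 ≤ c + τ
  · have hF := bda_F hc hS hb hT
    have h3 := hI.goal c F X hc h2 hS hF hb
    rw [← wt_eq (x := x) hS] at h3
    refine le_trans ?_ h3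
    have h4 : ∀ m : Fin τ → Fin (6 * n), (∑ _T ∈ AX g Pm Vm X, if Gl m c X then (1 : ℝ) else 0) =
        (if ∀ i, m i ∈ X.R then 1 else 0) * ((AX g Pm Vm X).card : ℝ) := by
      intro m
      by_cases hm : ∀ i, m i ∈ X.R
      · rw [if_pos hm, if_pos ⟨h2, hm⟩, Finset.sum_const, nsmul_eq_mul, mul_one, one_mul]
      · rw [if_neg hm, if_neg (fun h => hm h.2), Finset.sum_const_zero, zero_mul]
    rw [Finset.sum_congr rfl fun m _ => h4 m, ← Finset.sum_mul, Finset.sum_boole, bda_card, Nat.cast_pow]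
    refine mul_le_mul_of_nonneg_left ?_ (by positivity)
    rw [← Set.ncard_coe_finset, Nat.cast_le]
    exact Set.ncard_le_ncard (fun T hT => bda_ext (Finset.mem_coe.1 hT)) (Set.toFinite _)
  · have h4 : ∀ m : Fin τ → Fin (6 * n), (∑ _T ∈ AX g Pm Vm X, if Gl m c X then (1 : ℝ) else 0) = 0 := by
      intro m
      rw [if_neg (fun h => h2 h.1), Finset.sum_const_zero]
    rw [Finset.sum_congr rfl fun m _ => h4 m, Finset.sum_const_zero]
    exact h0

theorem tt_le (hI : Inp n g x κ B pr V V1 Pm Vm τ N0) (hx : 0 < x) (hc : c ≤ 1) (hS : Sc c X F) (hf : f ∈ X.B) (hb : X.B.ncard ≤ Pm) :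
    TT g Pm Vm τ c X f ≤ N0 * Wt x X := by
  have h0 : 0 ≤ N0 * Wt x X := mul_nonneg hI.n0 (wt_pos hx X).le
  unfold TT
  rcases (AX g Pm Vm X).eq_empty_or_nonempty with he | ⟨T, hT⟩
  · rw [he]
    simpa using h0
  have hF := bda_F hc hS hb hT
  have h3 := hI.term c F X f hc hS hf hF hb
  rw [← wt_eq (x := x) hS] at h3
  refine le_trans ?_ h3
  rw [Finset.sum_const, Finset.card_univ, Fintype.card_fun, Fintype.card_fin, Fintype.card_fin, nsmul_eq_mul,
    Nat.cast_pow, Finset.sum_boole]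
  refine mul_le_mul_of_nonneg_left ?_ (by positivity)
  rw [← Set.ncard_coe_finset, Nat.cast_le]
  refine Set.ncard_le_ncard (fun T hT => ?_) (Set.toFinite _)
  rw [Finset.mem_coe, Finset.mem_filter] at hT
  exact ⟨(bda_ext hT.1).1, (bda_ext hT.1).2, hT.2⟩

end SYS.CH
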