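import Pool.Agent.SYS.CH.Nod
import Pool.Agent.SYS.PX.Br

/-!
# SYS-CH-Mas: total weight of the ends and of the nodes of a block

Ends are prefix free; nodes of the same length are prefix free; `tree_mass`.
-/

namespace SYS.CH

open Classical SST SYS.Num

section
variable {D : Type} [Finite D] {b : Part D → Option D} {B : Blk} {X Y : Part D} {f z z' : D} {w : List Stp} {l : List D} {p : ℕ}
  {P : List ℕ} {F κ : ℕ} {x : ℝ}

theorem br_unique (h : Part.BR b X f w Y z) (h' : Part.BR b X f w Y z') : z = z' := by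
  induction w generalizing X f with
  | nil =>
    rw [h.2, h'.2]
  | cons s w ih =>
    obtain ⟨d, Z₁, z₁, hb, hd, hz, hst, hr⟩ := h
    obtain ⟨d', Z₂, z₂, hb', hd', hz', hst', hr'⟩ := h'
    have h1 : d = d' := Option.some.inj (hb.symm.trans hb')
    subst h1
    obtain ⟨h2, h3⟩ := Part.st_unique hst hst' (Part.br_sub hr) (Part.br_sub hr')
    subst h2
    subst h3
    exact ih hr hr'

theorem cpl_mass (hx : 0 < x) (hS : X.Typ (f :: l) (p :: P) F κ) (Q : Finset (List Stp × Part D × D)) (hQ : ∀ q ∈ Q, Cpl B X f q) :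
    ∑ q ∈ Q, Part.nwt x F q.1 ≤ 1 := by
  have hf : f ∈ X.B := hS.hl.1 f List.mem_cons_self
  obtain ⟨h1, h2⟩ := Part.rb_rul (B.nxt X f) [] X f hf
  have key : ∀ q ∈ Q, Part.RchG (Part.rb (B.nxt X f)) [] X (Part.rb (B.nxt X f) [] X f) q.1 q.2.1 q.2.2 := by
    intro q hq
    have h3 := Part.br_rchg (h := []) (hQ q hq).1
    rw [Part.rb_none (hQ q hq).2] at h3
    exact h3
  refine Part.tree_mass hx (Part.rb_rul (B.nxt X f)) (Part.typ_repl hS h1 h2) Q key ?_
  rintro ⟨u, Z, z⟩ hq ⟨u', Z', z'⟩ hq' ⟨v, hv, hr⟩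
  have hv' : u' = u ++ v := hv
  subst hv'
  have hr' : Part.RchG (Part.rb (B.nxt X f)) ([] ++ u) Z z v Z' z' := hr
  have hb : Part.BR (B.nxt X f) X f (u ++ v) Z' z' := (hQ _ hq').1
  have hn : B.nxt X f Z = none := (hQ _ hq).2
  obtain ⟨Y, y, hY, hY'⟩ := Part.br_append.1 hb
  have h3 := Part.br_rchg (h := []) hY
  obtain ⟨h4, h5⟩ := Part.rchg_unique (key _ hq) h3 (Part.rchg_sub hr') (Part.br_sub hY')
  have h4' : Z = Y := h4
  subst h4'
  rw [Part.rb_none hn] at h5
  have h5' : z = y := h5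
  subst h5'
  cases v with
  | nil =>
    obtain ⟨h6, h7⟩ := hY'
    subst h6
    subst h7
    rw [List.append_nil]
  | cons s v =>
    obtain ⟨d, Z₁, z₁, hbd, -⟩ := hY'
    rw [hn] at hbd
    exact absurd hbd (by simp)

theorem act_mass (hx : 0 < x) (hB : B.Ok) (hS : X.Typ (f :: l) (p :: P) F κ) (Q : Finset (List Stp × Part D × D))
    (hQ : ∀ q ∈ Q, ∃ d, Act B X f q d) : ∑ q ∈ Q, Part.nwt x F q.1 ≤ B.K := by
  have hf : f ∈ X.B := hS.hl.1 f List.mem_cons_self
  obtain ⟨h1, h2⟩ := Part.rb_rul (B.nxt X f) [] X f hf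
  have hlen : ∀ q ∈ Q, q.1.length ∈ Finset.range B.K := by
    intro q hq
    obtain ⟨d, hd⟩ := hQ q hq
    exact Finset.mem_range.2 (hB.len X f q d hf hd)
  have hone : ∀ j, ∑ q ∈ Q.filter (fun q => q.1.length = j), Part.nwt x F q.1 ≤ 1 := by
    intro j
    set Q1 := Q.filter (fun q => q.1.length = j) with hQ1
    have hbr : ∀ q ∈ Q1, Part.BR (B.nxt X f) X f q.1 q.2.1 q.2.2 := by
      intro q hq
      obtain ⟨d, hd⟩ := hQ q (Finset.mem_filter.1 hq).1
      exact hd.1
    let φ : List Stp × Part D × D → List Stp × Part D × D :=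
      fun q => (q.1, q.2.1, Part.rb (B.nxt X f) ([] ++ q.1) q.2.1 q.2.2)
    have hinj : Set.InjOn φ (Q1 : Set (List Stp × Part D × D)) := by
      rintro ⟨u, Z, z⟩ hq ⟨u', Z', z'⟩ hq' hφ
      have h3 : u = u' := congrArg Prod.fst hφ
      have h4 : Z = Z' := congrArg (fun t => t.2.1) hφ
      subst h3
      subst h4
      have h5 : z = z' := br_unique (hbr _ (Finset.mem_coe.1 hq)) (hbr _ (Finset.mem_coe.1 hq'))
      subst h5
      rfl
    have hsum : ∑ q ∈ Q1.image φ, Part.nwt x F q.1 = ∑ q ∈ Q1, Part.nwt x F q.1 := by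
      rw [Finset.sum_image hinj]
    rw [← hsum]
    refine Part.tree_mass (h := []) hx (Part.rb_rul (B.nxt X f)) (Part.typ_repl hS h1 h2) (Q1.image φ) ?_ ?_
    · intro q hq
      obtain ⟨q0, hq0, rfl⟩ := Finset.mem_image.1 hq
      exact Part.br_rchg (h := []) (hbr q0 hq0)
    · intro q hq q' hq' hA
      obtain ⟨q0, hq0, rfl⟩ := Finset.mem_image.1 hq
      obtain ⟨q1, hq1, rfl⟩ := Finset.mem_image.1 hq'
      obtain ⟨v, hv, hr⟩ := hA
      have h3 : (φ q1).1 = q1.1 := rfl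
      have h4 : (φ q0).1 = q0.1 := rfl
      have h5 : q1.1.length = q0.1.length + v.length := by
        rw [← h3, hv, List.length_append, h4]
      have h6 : q1.1.length = j := (Finset.mem_filter.1 hq1).2
      have h7 : q0.1.length = j := (Finset.mem_filter.1 hq0).2
      have h8 : v = [] := List.eq_nil_of_length_eq_zero (by omega)
      subst h8
      rw [List.append_nil] at hv
      obtain ⟨h9, h10⟩ := hr
      exact Prod.ext hv.symm (Prod.ext h9.symm h10.symm)
  rw [← Finset.sum_fiberwise_of_maps_to hlen]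
  calc ∑ j ∈ Finset.range B.K, ∑ q ∈ Q with q.1.length = j, Part.nwt x F q.1
      ≤ ∑ _j ∈ Finset.range B.K, (1 : ℝ) := Finset.sum_le_sum fun j _ => hone j
    _ = B.K := by rw [Finset.sum_const, Finset.card_range, nsmul_eq_mul, mul_one]

end

end SYS.CH
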