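import Pool.Agent.SYS.CH.Exc
import Pool.Agent.SYS.CH.Mas

/-!
# SYS-CH-BdB: weights of the ends and the nodes of a block

The nodes are chosen with `Classical.choose`, their weights are `nwt * Wt x X` (`wt_node`), the sums of the `nwt` are bounded by `cpl_mass`, `act_mass`, `Inp.ex`.
-/

namespace SYS.CH

open Classical SST SYS.Num

variable {n g Pm Vm τ : ℕ} {B : Blk} {x κ : ℝ} {pr V : ℕ → ℝ} {V1 N0 : ℝ} {c F : ℕ} {X : Part (Fin (6 * n))} {f : Fin (6 * n)}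

private theorem bb_append {D : Type} [Finite D] {b : Part D → Option D} {w w' : List Stp} {Z Z'' : Part D} {z z'' : D}
    (h : Part.BR b Z z (w ++ w') Z'' z'') : ∃ Z' z', Part.BR b Z z w Z' z' ∧ Part.BR b Z' z' w' Z'' z'' := by
  induction w generalizing Z z with
  | nil => exact ⟨Z, z, ⟨rfl, rfl⟩, h⟩
  | cons s w ih =>
    obtain ⟨d, Z1, z1, h1, h2, h3, h4, h5⟩ := h
    obtain ⟨Z', z', h6, h7⟩ := ih h5
    exact ⟨Z', z', ⟨d, Z1, z1, h1, h2, h3, h4, h6⟩, h7⟩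

theorem cpl_len (hB : B.Ok) (hf : f ∈ X.B) {q : List Stp × Part (Fin (6 * n)) × Fin (6 * n)} (hq : Cpl B X f q) : q.1.length ≤ B.K := by
  obtain ⟨h1, h2⟩ := hq
  rcases List.eq_nil_or_concat q.1 with h3 | ⟨u, s, h3⟩
  · rw [h3] at h1
    obtain ⟨h4, _⟩ := h1
    rw [h4, hB.st X f hf] at h2
    exact absurd h2 (by simp)
  · rw [List.concat_eq_append] at h3
    rw [h3] at h1
    obtain ⟨Y, z, h4, d, Z1, z1, h5, h6, h7, _, _⟩ := bb_append h1
    have h8 := hB.len X f (u, Y, z) d hf ⟨h4, h5, h6, h7⟩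
    rw [h3]
    simp only [List.length_append, List.length_cons, List.length_nil]
    exact h8

private theorem bb_node (B : Blk) (X : Part (Fin (6 * n))) (f : Fin (6 * n)) :
    ∃ N : Part (Fin (6 * n)) → List Stp × Part (Fin (6 * n)) × Fin (6 * n),
      ∀ X' ∈ CX B X f, (N X').2.1 = X' ∧ Cpl B X f (N X') := by
  have h : ∀ X' : Part (Fin (6 * n)), ∃ q : List Stp × Part (Fin (6 * n)) × Fin (6 * n),
      X' ∈ CX B X f → q.2.1 = X' ∧ Cpl B X f q := by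
    intro X'
    by_cases h : X' ∈ CX B X f
    · obtain ⟨w, x', h1⟩ := mem_CX.1 h
      exact ⟨(w, X', x'), fun _ => ⟨rfl, h1⟩⟩
    · exact ⟨([], X', f), fun h' => absurd h' h⟩
  choose N hN using h
  exact ⟨N, hN⟩

private theorem bb_sum {N : Part (Fin (6 * n)) → List Stp × Part (Fin (6 * n)) × Fin (6 * n)}
    (hN : ∀ X' ∈ CX B X f, (N X').2.1 = X' ∧ Cpl B X f (N X'))
    (φ : List Stp × Part (Fin (6 * n)) × Fin (6 * n) → ℝ) :
    ∑ q ∈ (CX B X f).image N, φ q = ∑ X' ∈ CX B X f, φ (N X') := by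
  refine Finset.sum_image fun a ha b hb hab => ?_
  rw [← (hN a ha).1, ← (hN b hb).1, hab]

theorem cx_wt (hx : 0 < x) (hS : Sc c X F) (hf : f ∈ X.B) : ∑ X' ∈ CX B X f, Wt x X' ≤ Wt x X := by
  obtain ⟨N, hN⟩ := bb_node B X f
  obtain ⟨l, P, _, hT, _⟩ := sc_typ hS hf
  have h1 := cpl_mass hx hT ((CX B X f).image N) (fun q hq => by
    obtain ⟨X', hX', rfl⟩ := Finset.mem_image.1 hq
    exact (hN X' hX').2)
  rw [bb_sum hN] at h1
  have h2 : ∑ X' ∈ CX B X f, Wt x X' = (∑ X' ∈ CX B X f, Part.nwt x F (N X').1) * Wt x X := by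
    rw [Finset.sum_mul]
    refine Finset.sum_congr rfl fun X' hX' => ?_
    obtain ⟨e1, e2, _⟩ := hN X' hX'
    rw [e1] at e2
    exact wt_node hx hS hf e2
  rw [h2]
  exact mul_le_of_le_one_left (wt_pos hx X).le h1

theorem nx_wt (hx : 0 < x) (hB : B.Ok) (hS : Sc c X F) (hf : f ∈ X.B) : ∑ a ∈ NX B X f, Wt x a.1 ≤ B.K * Wt x X := by
  have h : ∀ a : Part (Fin (6 * n)) × Fin (6 * n), ∃ q : List Stp × Part (Fin (6 * n)) × Fin (6 * n),
      a ∈ NX B X f → q.2.1 = a.1 ∧ Act B X f q a.2 := by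
    intro a
    by_cases h : a ∈ NX B X f
    · obtain ⟨w, z, h1⟩ := mem_NX.1 h
      exact ⟨(w, a.1, z), fun _ => ⟨rfl, h1⟩⟩
    · exact ⟨([], X, f), fun h' => absurd h' h⟩
  choose N hN using h
  obtain ⟨l, P, _, hT, _⟩ := sc_typ hS hf
  have h1 := act_mass hx hB hT ((NX B X f).image N) (fun q hq => by
    obtain ⟨a, ha, rfl⟩ := Finset.mem_image.1 hq
    exact ⟨a.2, (hN a ha).2⟩)
  have hinj : ∑ q ∈ (NX B X f).image N, Part.nwt x F q.1 = ∑ a ∈ NX B X f, Part.nwt x F (N a).1 := by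
    refine Finset.sum_image fun a ha b hb hab => ?_
    have e1 := (hN a ha).1
    have e2 := (hN b hb).1
    have g1 := (hN a ha).2.2.1
    have g2 := (hN b hb).2.2.1
    rw [← hab] at e2 g2
    rw [g1] at g2
    exact Prod.ext (e1.symm.trans e2) (Option.some.inj g2)
  rw [hinj] at h1
  have h2 : ∑ a ∈ NX B X f, Wt x a.1 = (∑ a ∈ NX B X f, Part.nwt x F (N a).1) * Wt x X := by
    rw [Finset.sum_mul]
    refine Finset.sum_congr rfl fun a ha => ?_
    obtain ⟨e1, e2, _⟩ := hN a ha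
    rw [e1] at e2
    exact wt_node hx hS hf e2
  rw [h2]
  exact mul_le_mul_of_nonneg_right h1 (wt_pos hx X).le

theorem planar_le (hI : Inp n g x κ B pr V V1 Pm Vm τ N0) (hx : 0 < x) (hS : Sc c X F) (hf : f ∈ X.B) (h2 : 2 * n ≤ F + Vm)
    (hb : X.B.ncard ≤ Pm) {Φ : Part (Fin (6 * n)) → Fin (6 * n) → ℝ} {G : ℝ} (hG : 0 ≤ G)
    (hΦ : ∀ X' ∈ CX B X f, ∀ e ∈ X'.B, Φ X' e ≤ G * V (X'.per e) * Wt x X') :
    ∑ X' ∈ CX B X f, Real.exp (-(κ * pr (X.per f))) * (∑ e, if e ∈ X'.B ∧ e ∉ X.B then Φ X' e else 0) ≤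
      G * V (X.per f) * Wt x X := by
  obtain ⟨N, hN⟩ := bb_node B X f
  obtain ⟨l, P, _, hT, hp⟩ := sc_typ hS hf
  have h1 := hI.ex X f l (X.per f) P F c hT h2 (by rw [hp]; exact hb) ((CX B X f).image N) (fun q hq => by
    obtain ⟨X', hX', rfl⟩ := Finset.mem_image.1 hq
    exact (hN X' hX').2)
  rw [bb_sum hN] at h1
  have hW := (wt_pos hx X).le
  have hE : 0 ≤ Real.exp (-(κ * pr (X.per f))) := (Real.exp_pos _).le
  have h3 : ∀ X' ∈ CX B X f, Real.exp (-(κ * pr (X.per f))) *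
      (∑ e, if e ∈ X'.B ∧ e ∉ X.B then Φ X' e else 0) ≤
      (Real.exp (-(κ * pr (X.per f))) * G * Wt x X) *
        (Part.nwt x F (N X').1 * ∑ e, (if e ∈ (N X').2.1.B ∧ e ∉ X.B then V ((N X').2.1.per e) else 0)) := by
    intro X' hX'
    obtain ⟨e1, e2, _⟩ := hN X' hX'
    have e3 := e2
    rw [e1] at e3
    have hw := wt_node hx hS hf e3
    rw [e1]
    have h4 : (∑ e, if e ∈ X'.B ∧ e ∉ X.B then Φ X' e else 0) ≤
        (G * Wt x X') * ∑ e, (if e ∈ X'.B ∧ e ∉ X.B then V (X'.per e) else 0) := by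
      rw [Finset.mul_sum]
      refine Finset.sum_le_sum fun e _ => ?_
      by_cases he : e ∈ X'.B ∧ e ∉ X.B
      · rw [if_pos he, if_pos he]
        exact (hΦ X' hX' e he.1).trans (le_of_eq (by ring))
      · rw [if_neg he, if_neg he, mul_zero]
    refine (mul_le_mul_of_nonneg_left h4 hE).trans (le_of_eq ?_)
    rw [hw]
    ring
  refine (Finset.sum_le_sum h3).trans ?_
  rw [← Finset.mul_sum]
  have h5 : 0 ≤ Real.exp (-(κ * pr (X.per f))) * G * Wt x X := mul_nonneg (mul_nonneg hE hG) hW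
  refine (mul_le_mul_of_nonneg_left h1 h5).trans (le_of_eq ?_)
  have h6 : Real.exp (-(κ * pr (X.per f))) * Real.exp (κ * pr (X.per f)) = 1 := by
    rw [← Real.exp_add, neg_add_cancel, Real.exp_zero]
  calc Real.exp (-(κ * pr (X.per f))) * G * Wt x X * (Real.exp (κ * pr (X.per f)) * V (X.per f))
      = (Real.exp (-(κ * pr (X.per f))) * Real.exp (κ * pr (X.per f))) * (G * V (X.per f) * Wt x X) := by ring
    _ = G * V (X.per f) * Wt x X := by rw [h6, one_mul]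

end SYS.CH
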