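import Pool.Agent.SYS.CH.NodW

/-!
# SYS-CH-GlN: the first gluing inside a hole

PLAN.  `gl Y y z` = `Y.glue y z` if both are boundary darts.  `gl_sc`: `typ_ns` (holes `u`, `v`, `κ = 1`), `Con` passes to `glue` (`cn_sub`).
`gl_B`: `glue` removes `y`, `z` from the boundary (`Part.glue_B` or the definition; `z ≠ y`: `Y.hw y = y :: (u ++ z :: v)` has no duplicates).
`gl_le`: see `alt_leg` in `Lib/Alt` and the lemmas on `glue` and `Le` in `Lib`.  `wt_gl`: `wtF` with two boundary darts less: factor `yy / AA²`, and `yy < 1/4` (`UP/Dom: yy_lt`), `AA ≥ 2/3` (`AA_gt`).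
-/

namespace SYS.CH

open Classical SST SYS.Num

section
variable {D : Type} [Finite D] {Y : Part D} {y z : D} {F : ℕ}

/-- Gluing (total function). -/
noncomputable def gl (Y : Part D) (y z : D) : Part D := if h : y ∈ Y.B ∧ z ∈ Y.B then Y.glue y z h.1 h.2 else Y

omit [Finite D] in
private theorem gln_eq {Y : Part D} {y z : D} (hy : y ∈ Y.B) (hz : z ∈ Y.B) : gl Y y z = Y.glue y z hy hz := by
  unfold gl
  rw [dif_pos ⟨hy, hz⟩]

theorem gl_le {T : Tri D} (hT : Y.Le T) (hy : y ∈ Y.B) (hy' : T.a y ∈ Y.B) : (gl Y y (T.a y)).Le T := by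
  rw [gln_eq hy hy']
  exact Part.glue_le Y hy hy' hT rfl

theorem gl_sc (hS : Sc 0 Y F) {T : Tri D} (hT : Y.Le T) {u v : List D} (h : Y.NSt T y u v) :
    Sc 1 (gl Y y (T.a y)) F ∧ (gl Y y (T.a y)).B.ncard + 2 = Y.B.ncard ∧ (gl Y y (T.a y)).Le T ∧ (gl Y y (T.a y)).HConn T ∧
      Y.Sub (gl Y y (T.a y)) := by
  obtain ⟨hu, hv, hw, hx, hy, hconn⟩ := h
  have hle := gl_le hT hx hy
  rw [gln_eq hx hy] at hle ⊢
  refine ⟨⟨Part.con_glue Y hx hy hS.1, ?_⟩, ?_, hle, hconn, Part.glue_sub Y hx hy⟩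
  · obtain ⟨l, P, hl, hTyp, -⟩ := sc_typ hS hx
    obtain ⟨z, u', rfl⟩ := List.exists_cons_of_ne_nil hu
    obtain ⟨z', v', rfl⟩ := List.exists_cons_of_ne_nil hv
    have h1 := Part.typ_ns hTyp hx hy (u := u') (v := v') hw
    exact ⟨_, _, h1, by simp [hl]⟩
  · have hne : y ≠ T.a y := (T.ane y).symm
    rw [Part.glue_B Y hx hy hne]
    have h1 : ({y, T.a y} : Set D) ⊆ Y.B := by
      rintro d (rfl | rfl)
      · exact hx
      · exact hy
    have h2 := Set.ncard_sdiff_add_ncard_of_subset h1 (Set.toFinite _)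
    rw [Set.ncard_pair hne] at h2
    exact h2

end

theorem wt_gl {n : ℕ} {x : ℝ} (hx : 0 < x) {F : ℕ} {Y : Part (Fin (6 * n))} {y : Fin (6 * n)} (hS : Sc 0 Y F) {T : Tri (Fin (6 * n))}
    (hT : Y.Le T) {u v : List (Fin (6 * n))} (h : Y.NSt T y u v) : Wt x (gl Y y (T.a y)) ≤ Wt x Y := by
  obtain ⟨h1, h2, -, -, -⟩ := gl_sc hS hT h
  rw [wt_eq h1, wt_eq hS, ← h2]
  have hyy := yy_pos x
  have hs : 0 < √(yy x) := Real.sqrt_pos.2 hyy
  have hs2 : √(yy x) ^ 2 = yy x := Real.sq_sqrt hyy.le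
  have hA := AA_gt x
  have hlt : yy x < 1 / 4 := by
    have h3 := uu_pos x
    have h4 := uu_lt x
    rw [yy_eq]
    have h5 : uu x * (1 - uu x) ≤ 1 / 4 := by nlinarith [sq_nonneg (uu x - 1 / 2)]
    have h6 : 0 ≤ uu x * (1 - uu x) := mul_nonneg h3.le (by linarith)
    nlinarith
  generalize (gl Y y (T.a y)).B.ncard = b
  unfold wtF
  have e1 : ((2 * n : ℤ) - F - b) = ((2 * n : ℤ) - F - ((b + 2 : ℕ) : ℤ)) + 2 := by
    push_cast
    ring
  rw [e1, zpow_add₀ hs.ne', pow_add]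
  have e2 : √(yy x) ^ (2 : ℤ) = yy x := by
    have e3 : √(yy x) ^ (2 : ℤ) = √(yy x) ^ 2 := by norm_cast
    rw [e3, hs2]
  rw [e2]
  have hz : 0 < √(yy x) ^ ((2 * n : ℤ) - F - ((b + 2 : ℕ) : ℤ)) := zpow_pos hs _
  have hA2 : yy x ≤ AA x ^ 2 := by nlinarith
  have hA0 : 0 < AA x := by linarith
  calc ((3 * F).factorial : ℝ) * AA x ^ b * (√(yy x) ^ ((2 * n : ℤ) - F - ((b + 2 : ℕ) : ℤ)) * yy x)
      = (((3 * F).factorial : ℝ) * AA x ^ b * √(yy x) ^ ((2 * n : ℤ) - F - ((b + 2 : ℕ) : ℤ))) * yy x := by ring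
    _ ≤ (((3 * F).factorial : ℝ) * AA x ^ b * √(yy x) ^ ((2 * n : ℤ) - F - ((b + 2 : ℕ) : ℤ))) * AA x ^ 2 :=
        mul_le_mul_of_nonneg_left hA2 (by positivity)
    _ = _ := by ring

end SYS.CH
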