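import Pool.Agent.SYS.CH.Low
import Pool.Agent.SYS.CH.GlN

/-!
# SYS-CH-Exc: exchange of the sum over the triangulations and the sum over the chains

`AX` = good triangulations which contain `X`; `SS` = sum over the targets and over `AX` of `Z`; `CX` = end regions of the block, `NX` = nodes with
their gate; `GT`, `TT` = number of (targets, triangulations) with the goal resp. the terminal event.

PLAN.  `ss_succ`: unfold `Z` (definition for `J + 1`) and split `SS (J + 1)` into three sums (`Finset.sum_add_distrib`).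
First sum: for `T ∈ AX X`: `PE B T X f X'` implies `X' ∈ CX` and `T ∈ AX X'`, so
`∑ T ∈ AX X, ∑ X', if PE .. then φ m T X' else 0 ≤ ∑ X' ∈ CX, ∑ T ∈ AX X', φ m T X'` for `φ ≥ 0` (`Finset.sum_comm`, then `sum_le_sum_of_subset_of_nonneg`
after rewriting as a sum over a filter); `φ = if Gl then 1 else a + b ≤ (if Gl then 1 else 0) + a + b`; `Finset.sum_comm` with the sum over `e`.
Second sum: `NE` gives `(Y, y) ∈ NX`, `z = T.a y`, `X' = gl Y y z` (`dif_pos`), `NG Y y z`, `T ∈ AX (gl Y y z)` (`gl_le`; `HConn` is in `NSt`);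
`X'` is a function of `((Y, y), z)`, so the sum over `X'` is at most the sum over these triples.  Third sum: `TE` gives `(Y, y) ∈ NX` with `Tm`, `T ∈ AX Y`.
-/

namespace SYS.CH

open Classical SST SYS.Num

section
variable {n g Pm Vm τ : ℕ} {B : Blk} {κ : ℝ} {pr : ℕ → ℝ}

/-- Good triangulations which contain the region. -/
noncomputable def AX (g Pm Vm : ℕ) (X : Part (Fin (6 * n))) : Finset (Tri (Fin (6 * n))) :=
  (Set.toFinite {T | Gd g Pm Vm T ∧ X.Le T ∧ X.HConn T}).toFinset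

/-- Sum of `Z` over the targets and the triangulations. -/
noncomputable def SS (g Pm Vm τ : ℕ) (B : Blk) (κ : ℝ) (pr : ℕ → ℝ) (J c s : ℕ) (X : Part (Fin (6 * n))) (f : Fin (6 * n)) : ℝ :=
  ∑ m : Fin τ → Fin (6 * n), ∑ T ∈ AX g Pm Vm X, Z B κ pr m T J c s X f

/-- End regions of the block. -/
noncomputable def CX (B : Blk) (X : Part (Fin (6 * n))) (f : Fin (6 * n)) : Finset (Part (Fin (6 * n))) :=
  (Set.toFinite {X' | ∃ w x', Cpl B X f (w, X', x')}).toFinset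

/-- Nodes of the block with their gates. -/
noncomputable def NX (B : Blk) (X : Part (Fin (6 * n))) (f : Fin (6 * n)) : Finset (Part (Fin (6 * n)) × Fin (6 * n)) :=
  (Set.toFinite {a | ∃ w z, Act B X f (w, a.1, z) a.2}).toFinset

/-- Goal. -/
noncomputable def GT (g Pm Vm τ c : ℕ) (X : Part (Fin (6 * n))) : ℝ :=
  ∑ m : Fin τ → Fin (6 * n), ∑ _T ∈ AX g Pm Vm X, if Gl m c X then 1 else 0

/-- Terminal event. -/
noncomputable def TT (g Pm Vm τ c : ℕ) (Y : Part (Fin (6 * n))) (y : Fin (6 * n)) : ℝ :=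
  ∑ _m : Fin τ → Fin (6 * n), ∑ T ∈ AX g Pm Vm Y, if Tm c T Y y then 1 else 0

/-- A possible first gluing. -/
def NG (Y : Part (Fin (6 * n))) (y z : Fin (6 * n)) : Prop := ∃ T : Tri (Fin (6 * n)), Y.Le T ∧ T.a y = z ∧ ∃ u v, Y.NSt T y u v

theorem mem_AX {X : Part (Fin (6 * n))} {T : Tri (Fin (6 * n))} : T ∈ AX g Pm Vm X ↔ Gd g Pm Vm T ∧ X.Le T ∧ X.HConn T := by
  simp [AX]

theorem mem_CX {X X' : Part (Fin (6 * n))} {f : Fin (6 * n)} : X' ∈ CX B X f ↔ ∃ w x', Cpl B X f (w, X', x') := by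
  simp [CX]

theorem mem_NX {X : Part (Fin (6 * n))} {f : Fin (6 * n)} {a : Part (Fin (6 * n)) × Fin (6 * n)} :
    a ∈ NX B X f ↔ ∃ w z, Act B X f (w, a.1, z) a.2 := by
  simp [NX]

theorem ss_zero (c s : ℕ) (X : Part (Fin (6 * n))) (f : Fin (6 * n)) : SS g Pm Vm τ B κ pr 0 c s X f = 0 := by
  simp [SS, Z]

theorem ss_nonneg (J c s : ℕ) (X : Part (Fin (6 * n))) (f : Fin (6 * n)) : 0 ≤ SS g Pm Vm τ B κ pr J c s X f :=
  Finset.sum_nonneg fun _ _ => Finset.sum_nonneg fun _ _ => z_nonneg _ _ _ _ _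

private theorem exc_swap {α β : Type} (S : Finset α) (U C : Finset β) (Sb : β → Finset α) (P : α → β → Prop) [∀ a b, Decidable (P a b)] (φ : α → β → ℝ)
    (h0 : ∀ a b, 0 ≤ φ a b) (h : ∀ a ∈ S, ∀ b ∈ U, P a b → b ∈ C ∧ a ∈ Sb b) :
    ∑ a ∈ S, ∑ b ∈ U, (if P a b then φ a b else 0) ≤ ∑ b ∈ C, ∑ a ∈ Sb b, φ a b := by
  rw [Finset.sum_comm]
  have h1 : ∀ b ∈ U, ∑ a ∈ S, (if P a b then φ a b else 0) ≤ if b ∈ C then ∑ a ∈ Sb b, φ a b else 0 := by
    intro b hb
    rw [← Finset.sum_filter]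
    by_cases hbC : b ∈ C
    · rw [if_pos hbC]
      refine Finset.sum_le_sum_of_subset_of_nonneg ?_ (fun a _ _ => h0 a b)
      intro a ha
      rw [Finset.mem_filter] at ha
      exact (h a ha.1 b hb ha.2).2
    · rw [if_neg hbC]
      rw [Finset.filter_false_of_mem, Finset.sum_empty]
      intro a ha hP
      exact hbC (h a ha b hb hP).1
  refine (Finset.sum_le_sum h1).trans ?_
  rw [← Finset.sum_filter]
  refine Finset.sum_le_sum_of_subset_of_nonneg ?_ (fun b _ _ => Finset.sum_nonneg fun a _ => h0 a b)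
  intro b hb
  exact (Finset.mem_filter.1 hb).2

private theorem exc_comm3 {α β γ : Type} [Fintype α] [Fintype γ] {S : Finset β} (F : α → β → γ → ℝ) :
    ∑ m : α, ∑ T ∈ S, ∑ e : γ, F m T e = ∑ e : γ, ∑ m : α, ∑ T ∈ S, F m T e := by
  calc ∑ m : α, ∑ T ∈ S, ∑ e : γ, F m T e = ∑ m : α, ∑ e : γ, ∑ T ∈ S, F m T e :=
        Finset.sum_congr rfl fun m _ => Finset.sum_comm
    _ = ∑ e : γ, ∑ m : α, ∑ T ∈ S, F m T e := Finset.sum_comm

private theorem exc_img {ι β : Type} (U : Finset β) (I : Finset ι) (P : β → Prop) (Q : ι → Prop) [DecidablePred P] [DecidablePred Q] (ψ : β → ℝ) (k : ι → β)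
    (h0 : ∀ b, 0 ≤ ψ b) (h : ∀ b ∈ U, P b → ∃ i ∈ I, Q i ∧ k i = b) :
    ∑ b ∈ U, (if P b then ψ b else 0) ≤ ∑ i ∈ I, (if Q i then ψ (k i) else 0) := by
  rw [← Finset.sum_filter, ← Finset.sum_filter]
  refine le_trans ?_ (Finset.sum_image_le_of_nonneg (f := ψ) (g := k) (s := I.filter Q) (fun b _ => h0 b))
  refine Finset.sum_le_sum_of_subset_of_nonneg ?_ (fun b _ _ => h0 b)
  intro b hb
  rw [Finset.mem_filter] at hb
  obtain ⟨i, hi, hq, hk⟩ := h b hb.1 hb.2
  rw [Finset.mem_image]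
  exact ⟨i, Finset.mem_filter.2 ⟨hi, hq⟩, hk⟩

private theorem exc_one (m : Fin τ → Fin (6 * n)) (c s J : ℕ) (X : Part (Fin (6 * n))) (f : Fin (6 * n)) :
    ∑ T ∈ AX g Pm Vm X, (∑ X' : Part (Fin (6 * n)), if PE B T X f X' then
      (if Gl m c X' then 1 else
        Real.exp (-(κ * pr (X.per f))) * (∑ e : Fin (6 * n), if e ∈ X'.B ∧ e ∉ X.B then Z B κ pr m T J c s X' e else 0) +
        (if s = 0 then 0 else ∑ e : Fin (6 * n), if e ∈ X'.B then Z B κ pr m T J c (s - 1) X' e else 0)) else 0) ≤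
    ∑ X' ∈ CX B X f, ∑ T ∈ AX g Pm Vm X', ((if Gl m c X' then 1 else 0) +
        Real.exp (-(κ * pr (X.per f))) * (∑ e : Fin (6 * n), if e ∈ X'.B ∧ e ∉ X.B then Z B κ pr m T J c s X' e else 0) +
        (if s = 0 then 0 else ∑ e : Fin (6 * n), if e ∈ X'.B then Z B κ pr m T J c (s - 1) X' e else 0)) := by
  have hA : ∀ (T : Tri (Fin (6 * n))) (X' : Part (Fin (6 * n))), 0 ≤ Real.exp (-(κ * pr (X.per f))) *
      (∑ e : Fin (6 * n), if e ∈ X'.B ∧ e ∉ X.B then Z B κ pr m T J c s X' e else 0) := by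
    intro T X'
    refine mul_nonneg (Real.exp_pos _).le (Finset.sum_nonneg fun e _ => ?_)
    split_ifs
    · exact z_nonneg _ _ _ _ _
    · exact le_rfl
  have hB : ∀ (T : Tri (Fin (6 * n))) (X' : Part (Fin (6 * n))), 0 ≤
      (if s = 0 then 0 else ∑ e : Fin (6 * n), if e ∈ X'.B then Z B κ pr m T J c (s - 1) X' e else 0) := by
    intro T X'
    split_ifs
    · exact le_rfl
    · refine Finset.sum_nonneg fun e _ => ?_
      split_ifs
      · exact z_nonneg _ _ _ _ _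
      · exact le_rfl
  refine le_trans ?_ (exc_swap (AX g Pm Vm X) Finset.univ (CX B X f) (AX g Pm Vm) (fun T X' => PE B T X f X')
    (fun T X' => (if Gl m c X' then 1 else 0) +
        Real.exp (-(κ * pr (X.per f))) * (∑ e : Fin (6 * n), if e ∈ X'.B ∧ e ∉ X.B then Z B κ pr m T J c s X' e else 0) +
        (if s = 0 then 0 else ∑ e : Fin (6 * n), if e ∈ X'.B then Z B κ pr m T J c (s - 1) X' e else 0)) ?_ ?_)
  · refine Finset.sum_le_sum fun T _ => Finset.sum_le_sum fun X' _ => ?_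
    have h1 := hA T X'
    have h2 := hB T X'
    by_cases hP : PE B T X f X'
    · rw [if_pos hP, if_pos hP]
      by_cases hG : Gl m c X'
      · rw [if_pos hG, if_pos hG]
        linarith
      · rw [if_neg hG, if_neg hG]
        linarith
    · rw [if_neg hP, if_neg hP]
  · intro T X'
    have h1 := hA T X'
    have h2 := hB T X'
    have h3 : (0 : ℝ) ≤ (if Gl m c X' then 1 else 0) := by
      split_ifs
      · exact zero_le_one
      · exact le_rfl
    linarith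
  · intro T hT X' _ hP
    obtain ⟨w, x', h1, h2, h3⟩ := hP
    exact ⟨mem_CX.2 ⟨w, x', h1⟩, mem_AX.2 ⟨(mem_AX.1 hT).1, h2, h3⟩⟩

private theorem exc_two (m : Fin τ → Fin (6 * n)) (c s J : ℕ) (X : Part (Fin (6 * n))) (f : Fin (6 * n)) :
    ∑ T ∈ AX g Pm Vm X, (∑ X' : Part (Fin (6 * n)), if c = 0 ∧ NE B T X f X' then
      (if Gl m 1 X' then 1 else ∑ e : Fin (6 * n), if e ∈ X'.B then Z B κ pr m T J 1 s X' e else 0) else 0) ≤
    if c = 0 then ∑ a ∈ NX B X f, ∑ z, (if NG a.1 a.2 z then ∑ T ∈ AX g Pm Vm (gl a.1 a.2 z),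
      ((if Gl m 1 (gl a.1 a.2 z) then 1 else 0) +
        ∑ e : Fin (6 * n), if e ∈ (gl a.1 a.2 z).B then Z B κ pr m T J 1 s (gl a.1 a.2 z) e else 0) else 0) else 0 := by
  by_cases hc : c = 0
  swap
  · rw [if_neg hc]
    refine (Finset.sum_eq_zero fun T _ => Finset.sum_eq_zero fun X' _ => ?_).le
    rw [if_neg (fun h => hc h.1)]
  rw [if_pos hc]
  have hA : ∀ (T : Tri (Fin (6 * n))) (X' : Part (Fin (6 * n))), 0 ≤
      ∑ e : Fin (6 * n), if e ∈ X'.B then Z B κ pr m T J 1 s X' e else 0 := by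
    intro T X'
    refine Finset.sum_nonneg fun e _ => ?_
    split_ifs
    · exact z_nonneg _ _ _ _ _
    · exact le_rfl
  have hG : ∀ X' : Part (Fin (6 * n)), (0 : ℝ) ≤ (if Gl m 1 X' then 1 else 0) := by
    intro X'
    split_ifs
    · exact zero_le_one
    · exact le_rfl
  -- for every `T` the sum over the triples
  have h1 : ∀ T ∈ AX g Pm Vm X, (∑ X' : Part (Fin (6 * n)), if c = 0 ∧ NE B T X f X' then
      (if Gl m 1 X' then 1 else ∑ e : Fin (6 * n), if e ∈ X'.B then Z B κ pr m T J 1 s X' e else 0) else 0) ≤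
      ∑ i ∈ (NX B X f) ×ˢ (Finset.univ : Finset (Fin (6 * n))),
        if (NG i.1.1 i.1.2 i.2 ∧ T ∈ AX g Pm Vm (gl i.1.1 i.1.2 i.2)) then
          ((if Gl m 1 (gl i.1.1 i.1.2 i.2) then 1 else 0) +
            ∑ e : Fin (6 * n), if e ∈ (gl i.1.1 i.1.2 i.2).B then Z B κ pr m T J 1 s (gl i.1.1 i.1.2 i.2) e else 0) else 0 := by
    intro T hT
    refine le_trans ?_ (exc_img Finset.univ ((NX B X f) ×ˢ (Finset.univ : Finset (Fin (6 * n))))
      (fun X' => c = 0 ∧ NE B T X f X')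
      (fun i => NG i.1.1 i.1.2 i.2 ∧ T ∈ AX g Pm Vm (gl i.1.1 i.1.2 i.2))
      (fun X' => (if Gl m 1 X' then 1 else 0) +
            ∑ e : Fin (6 * n), if e ∈ X'.B then Z B κ pr m T J 1 s X' e else 0)
      (fun i => gl i.1.1 i.1.2 i.2) ?_ ?_)
    · refine Finset.sum_le_sum fun X' _ => ?_
      have h2 := hA T X'
      by_cases hP : c = 0 ∧ NE B T X f X'
      · rw [if_pos hP, if_pos hP]
        by_cases hGl : Gl m 1 X'
        · rw [if_pos hGl, if_pos hGl]
          linarith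
        · rw [if_neg hGl, if_neg hGl]
          linarith
      · rw [if_neg hP, if_neg hP]
    · intro X'
      exact add_nonneg (hG X') (hA T X')
    · intro X' _ hP
      obtain ⟨w, Y, z, y, hact, hle, hhc, u, v, hx, hy, hns, rfl⟩ := hP.2
      have hgl : gl Y y (T.a y) = Y.glue y (T.a y) hx hy := by
        unfold gl
        rw [dif_pos ⟨hx, hy⟩]
      have hle' := gl_le hle hx hy
      have hhc' : (gl Y y (T.a y)).HConn T := by
        rw [hgl]
        obtain ⟨_, _, _, _, _, h5⟩ := hns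
        exact h5
      refine ⟨((Y, y), T.a y), ?_, ⟨⟨T, hle, rfl, u, v, hns⟩, ?_⟩, hgl⟩
      · exact Finset.mem_product.2 ⟨mem_NX.2 ⟨w, z, hact⟩, Finset.mem_univ _⟩
      · exact mem_AX.2 ⟨(mem_AX.1 hT).1, hle', hhc'⟩
  refine (Finset.sum_le_sum h1).trans ?_
  rw [← Finset.sum_product' (NX B X f) (Finset.univ : Finset (Fin (6 * n))) (fun a z => (if NG a.1 a.2 z then ∑ T ∈ AX g Pm Vm (gl a.1 a.2 z),
      ((if Gl m 1 (gl a.1 a.2 z) then 1 else 0) +
        ∑ e : Fin (6 * n), if e ∈ (gl a.1 a.2 z).B then Z B κ pr m T J 1 s (gl a.1 a.2 z) e else 0) else 0))]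
  rw [Finset.sum_comm]
  refine Finset.sum_le_sum fun i _ => ?_
  by_cases hN : NG i.1.1 i.1.2 i.2
  · rw [if_pos hN]
    have h3 : ∀ T ∈ AX g Pm Vm X, (if (NG i.1.1 i.1.2 i.2 ∧ T ∈ AX g Pm Vm (gl i.1.1 i.1.2 i.2)) then
          ((if Gl m 1 (gl i.1.1 i.1.2 i.2) then 1 else 0) +
            ∑ e : Fin (6 * n), if e ∈ (gl i.1.1 i.1.2 i.2).B then Z B κ pr m T J 1 s (gl i.1.1 i.1.2 i.2) e else 0) else (0 : ℝ)) =
        if T ∈ AX g Pm Vm (gl i.1.1 i.1.2 i.2) then
          ((if Gl m 1 (gl i.1.1 i.1.2 i.2) then 1 else 0) +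
            ∑ e : Fin (6 * n), if e ∈ (gl i.1.1 i.1.2 i.2).B then Z B κ pr m T J 1 s (gl i.1.1 i.1.2 i.2) e else 0) else 0 := by
      intro T _
      by_cases h4 : T ∈ AX g Pm Vm (gl i.1.1 i.1.2 i.2)
      · rw [if_pos ⟨hN, h4⟩, if_pos h4]
      · rw [if_neg (fun h => h4 h.2), if_neg h4]
    rw [Finset.sum_congr rfl h3, ← Finset.sum_filter]
    refine Finset.sum_le_sum_of_subset_of_nonneg ?_ (fun T _ _ => add_nonneg (hG _) (hA _ _))
    intro T hT
    exact (Finset.mem_filter.1 hT).2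
  · rw [if_neg hN]
    refine (Finset.sum_eq_zero fun T _ => ?_).le
    rw [if_neg (fun h => hN h.1)]

private theorem exc_three (c : ℕ) (X : Part (Fin (6 * n))) (f : Fin (6 * n)) :
    ∑ T ∈ AX g Pm Vm X, (if TE B c T X f then (1 : ℝ) else 0) ≤
    ∑ a ∈ NX B X f, ∑ T ∈ AX g Pm Vm a.1, if Tm c T a.1 a.2 then 1 else 0 := by
  have h1 : ∀ T ∈ AX g Pm Vm X, (if TE B c T X f then (1 : ℝ) else 0) ≤
      ∑ a ∈ NX B X f, if (T ∈ AX g Pm Vm a.1 ∧ Tm c T a.1 a.2) then 1 else 0 := by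
    intro T hT
    by_cases hE : TE B c T X f
    · rw [if_pos hE]
      obtain ⟨w, Y, z, y, hact, hle, hhc, htm⟩ := hE
      have h2 : (Y, y) ∈ NX B X f := mem_NX.2 ⟨w, z, hact⟩
      have h3 : T ∈ AX g Pm Vm (Y, y).1 ∧ Tm c T (Y, y).1 (Y, y).2 := ⟨mem_AX.2 ⟨(mem_AX.1 hT).1, hle, hhc⟩, htm⟩
      refine le_trans ?_ (Finset.single_le_sum (f := fun a : Part (Fin (6 * n)) × Fin (6 * n) =>
        if (T ∈ AX g Pm Vm a.1 ∧ Tm c T a.1 a.2) then (1 : ℝ) else 0) ?_ h2)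
      · show (1 : ℝ) ≤ if (T ∈ AX g Pm Vm (Y, y).1 ∧ Tm c T (Y, y).1 (Y, y).2) then (1 : ℝ) else 0
        rw [if_pos h3]
      · intro a _
        show (0 : ℝ) ≤ if (T ∈ AX g Pm Vm a.1 ∧ Tm c T a.1 a.2) then (1 : ℝ) else 0
        split_ifs
        · exact zero_le_one
        · exact le_rfl
    · rw [if_neg hE]
      refine Finset.sum_nonneg fun a _ => ?_
      split_ifs
      · exact zero_le_one
      · exact le_rfl
  refine (Finset.sum_le_sum h1).trans ?_
  rw [Finset.sum_comm]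
  refine Finset.sum_le_sum fun a _ => ?_
  have h3 : ∀ T ∈ AX g Pm Vm X, (if (T ∈ AX g Pm Vm a.1 ∧ Tm c T a.1 a.2) then (1 : ℝ) else 0) =
      if T ∈ AX g Pm Vm a.1 then (if Tm c T a.1 a.2 then 1 else 0) else 0 := by
    intro T _
    by_cases h4 : T ∈ AX g Pm Vm a.1
    · by_cases h5 : Tm c T a.1 a.2
      · rw [if_pos ⟨h4, h5⟩, if_pos h4, if_pos h5]
      · rw [if_neg (fun h => h5 h.2), if_pos h4, if_neg h5]
    · rw [if_neg (fun h => h4 h.1), if_neg h4]
  rw [Finset.sum_congr rfl h3, ← Finset.sum_filter]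
  refine Finset.sum_le_sum_of_subset_of_nonneg ?_ (fun T _ _ => ?_)
  · intro T hT
    exact (Finset.mem_filter.1 hT).2
  · split_ifs
    · exact zero_le_one
    · exact le_rfl

theorem ss_succ (J c s : ℕ) (X : Part (Fin (6 * n))) (f : Fin (6 * n)) :
    SS g Pm Vm τ B κ pr (J + 1) c s X f ≤
      (∑ X' ∈ CX B X f, (GT g Pm Vm τ c X' +
        Real.exp (-(κ * pr (X.per f))) * (∑ e, if e ∈ X'.B ∧ e ∉ X.B then SS g Pm Vm τ B κ pr J c s X' e else 0) +
        (if s = 0 then 0 else ∑ e, if e ∈ X'.B then SS g Pm Vm τ B κ pr J c (s - 1) X' e else 0))) +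
      (if c = 0 then ∑ a ∈ NX B X f, ∑ z, (if NG a.1 a.2 z then GT g Pm Vm τ 1 (gl a.1 a.2 z) +
        (∑ e, if e ∈ (gl a.1 a.2 z).B then SS g Pm Vm τ B κ pr J 1 s (gl a.1 a.2 z) e else 0) else 0) else 0) +
      ∑ a ∈ NX B X f, TT g Pm Vm τ c a.1 a.2 := by
  -- first sum
  have h1 : ∑ m : Fin τ → Fin (6 * n), ∑ X' ∈ CX B X f, ∑ T ∈ AX g Pm Vm X', ((if Gl m c X' then 1 else 0) +
        Real.exp (-(κ * pr (X.per f))) * (∑ e : Fin (6 * n), if e ∈ X'.B ∧ e ∉ X.B then Z B κ pr m T J c s X' e else 0) +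
        (if s = 0 then 0 else ∑ e : Fin (6 * n), if e ∈ X'.B then Z B κ pr m T J c (s - 1) X' e else 0)) =
      ∑ X' ∈ CX B X f, (GT g Pm Vm τ c X' +
        Real.exp (-(κ * pr (X.per f))) * (∑ e, if e ∈ X'.B ∧ e ∉ X.B then SS g Pm Vm τ B κ pr J c s X' e else 0) +
        (if s = 0 then 0 else ∑ e, if e ∈ X'.B then SS g Pm Vm τ B κ pr J c (s - 1) X' e else 0)) := by
    rw [Finset.sum_comm]
    refine Finset.sum_congr rfl fun X' _ => ?_
    simp only [Finset.sum_add_distrib]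
    congr 1
    · congr 1
      simp only [← Finset.mul_sum]
      congr 1
      simp only [SS]
      rw [exc_comm3 (fun m T e => if e ∈ X'.B ∧ e ∉ X.B then Z B κ pr m T J c s X' e else 0)]
      refine Finset.sum_congr rfl fun e _ => ?_
      by_cases he : e ∈ X'.B ∧ e ∉ X.B
      · simp only [if_pos he]
      · simp only [if_neg he, Finset.sum_const_zero]
    · by_cases hs : s = 0
      · simp only [if_pos hs, Finset.sum_const_zero]
      · simp only [if_neg hs]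
        simp only [SS]
        rw [exc_comm3 (fun m T e => if e ∈ X'.B then Z B κ pr m T J c (s - 1) X' e else 0)]
        refine Finset.sum_congr rfl fun e _ => ?_
        by_cases he : e ∈ X'.B
        · simp only [if_pos he]
        · simp only [if_neg he, Finset.sum_const_zero]
  have h2 : ∑ m : Fin τ → Fin (6 * n), (if c = 0 then ∑ a ∈ NX B X f, ∑ z, (if NG a.1 a.2 z then
      ∑ T ∈ AX g Pm Vm (gl a.1 a.2 z), ((if Gl m 1 (gl a.1 a.2 z) then 1 else 0) +
        ∑ e : Fin (6 * n), if e ∈ (gl a.1 a.2 z).B then Z B κ pr m T J 1 s (gl a.1 a.2 z) e else 0) else 0) else 0) =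
      (if c = 0 then ∑ a ∈ NX B X f, ∑ z, (if NG a.1 a.2 z then GT g Pm Vm τ 1 (gl a.1 a.2 z) +
        (∑ e, if e ∈ (gl a.1 a.2 z).B then SS g Pm Vm τ B κ pr J 1 s (gl a.1 a.2 z) e else 0) else 0) else 0) := by
    by_cases hc : c = 0
    swap
    · simp only [if_neg hc, Finset.sum_const_zero]
    simp only [if_pos hc]
    rw [Finset.sum_comm]
    refine Finset.sum_congr rfl fun a _ => ?_
    rw [Finset.sum_comm]
    refine Finset.sum_congr rfl fun z _ => ?_
    by_cases hN : NG a.1 a.2 z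
    swap
    · simp only [if_neg hN, Finset.sum_const_zero]
    simp only [if_pos hN]
    simp only [Finset.sum_add_distrib]
    congr 1
    simp only [SS]
    rw [exc_comm3 (fun m T e => if e ∈ (gl a.1 a.2 z).B then Z B κ pr m T J 1 s (gl a.1 a.2 z) e else 0)]
    refine Finset.sum_congr rfl fun e _ => ?_
    by_cases he : e ∈ (gl a.1 a.2 z).B
    · simp only [if_pos he]
    · simp only [if_neg he, Finset.sum_const_zero]
  have h3 : ∑ _m : Fin τ → Fin (6 * n), (∑ a ∈ NX B X f, ∑ T ∈ AX g Pm Vm a.1, if Tm c T a.1 a.2 then (1 : ℝ) else 0) =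
      ∑ a ∈ NX B X f, TT g Pm Vm τ c a.1 a.2 := by
    rw [Finset.sum_comm]
    rfl
  rw [← h1, ← h2, ← h3, ← Finset.sum_add_distrib, ← Finset.sum_add_distrib]
  unfold SS
  refine Finset.sum_le_sum fun m _ => ?_
  have h4 : ∑ T ∈ AX g Pm Vm X, Z B κ pr m T (J + 1) c s X f =
      ∑ T ∈ AX g Pm Vm X, (∑ X' : Part (Fin (6 * n)), if PE B T X f X' then
      (if Gl m c X' then 1 else
        Real.exp (-(κ * pr (X.per f))) * (∑ e : Fin (6 * n), if e ∈ X'.B ∧ e ∉ X.B then Z B κ pr m T J c s X' e else 0) +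
        (if s = 0 then 0 else ∑ e : Fin (6 * n), if e ∈ X'.B then Z B κ pr m T J c (s - 1) X' e else 0)) else 0) +
      ∑ T ∈ AX g Pm Vm X, (∑ X' : Part (Fin (6 * n)), if c = 0 ∧ NE B T X f X' then
      (if Gl m 1 X' then 1 else ∑ e : Fin (6 * n), if e ∈ X'.B then Z B κ pr m T J 1 s X' e else 0) else 0) +
      ∑ T ∈ AX g Pm Vm X, (if TE B c T X f then (1 : ℝ) else 0) := by
    rw [← Finset.sum_add_distrib, ← Finset.sum_add_distrib]
    rfl
  rw [h4]
  exact add_le_add (add_le_add (exc_one m c s J X f) (exc_two m c s J X f)) (exc_three c X f)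

end

end SYS.CH
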