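import Pool.Agent.SYS.CH.Defs

/-!
# SYS-CH-Gsu: the recursion of the constants
-/

namespace SYS.CH

variable {K Pm : ℕ} {V1 : ℝ}

private theorem gsu_arith {k p v a m : ℝ} (hk : 0 ≤ k) (hp : 0 ≤ p) (hv : 0 ≤ v) (ha : 0 ≤ a) (hm : 1 ≤ m) (ham : a ≤ m) :
    1 + k + p * v * a + k * p * (1 + p * v * a) ≤ (1 + k) * (1 + p) * (1 + p * v) * m := by
  have h1 : (1 + k) * (1 + p) * 1 ≤ (1 + k) * (1 + p) * m := mul_le_mul_of_nonneg_left hm (by positivity)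
  have h2 : (1 + k) * (1 + p) * (p * v) * a ≤ (1 + k) * (1 + p) * (p * v) * m :=
    mul_le_mul_of_nonneg_left ham (by positivity)
  have h3 : 0 ≤ k * (p * v) * a := by positivity
  have h4 : 0 ≤ p * (p * v) * a := by positivity
  nlinarith

private theorem gsu_H (K Pm : ℕ) (h : 1 ≤ V1) : 1 + (K : ℝ) ≤ (1 + K) * (1 + Pm) * (1 + Pm * V1) := by
  have h1 : (0 : ℝ) ≤ K := Nat.cast_nonneg K
  have h2 : (0 : ℝ) ≤ Pm := Nat.cast_nonneg Pm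
  have h3 := gsu_arith (v := V1) h1 h2 (by linarith) le_rfl (m := 1) le_rfl zero_le_one
  have h4 : 0 ≤ (K : ℝ) * Pm := by positivity
  nlinarith

private theorem gsu_H0 (K Pm : ℕ) (h : 1 ≤ V1) : 1 ≤ (1 + (K : ℝ)) * (1 + Pm) * (1 + Pm * V1) := by
  have h1 : (0 : ℝ) ≤ K := Nat.cast_nonneg K
  have h2 := gsu_H K Pm h
  linarith

theorem gg_nonneg (h : 1 ≤ V1) (d J : ℕ) : 0 ≤ GG K Pm V1 d J := by
  have h1 := gsu_H0 K Pm h
  unfold GG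
  have h2 : (0 : ℝ) ≤ J := Nat.cast_nonneg J
  have h3 : 0 ≤ (J : ℝ) * ((1 + K) * (1 + Pm) * (1 + Pm * V1)) := mul_nonneg h2 (by linarith)
  positivity

theorem gsu_zero (h : 1 ≤ V1) (J : ℕ) : GG K Pm V1 0 J + 1 + K ≤ GG K Pm V1 0 (J + 1) := by
  have h1 := gsu_H K Pm h
  unfold GG
  rw [zero_add, pow_one, pow_one]
  push_cast
  linarith

theorem gsu_succ (h : 1 ≤ V1) (d J : ℕ) : GG K Pm V1 (d + 1) J + 1 + K + Pm * V1 * GG K Pm V1 d J +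
    K * Pm * (1 + Pm * V1 * GG K Pm V1 d J) ≤ GG K Pm V1 (d + 1) (J + 1) := by
  have hK : (0 : ℝ) ≤ K := Nat.cast_nonneg K
  have hP : (0 : ℝ) ≤ Pm := Nat.cast_nonneg Pm
  have hJ : (0 : ℝ) ≤ J := Nat.cast_nonneg J
  have hH := gsu_H0 K Pm h
  have ha := gg_nonneg (K := K) (Pm := Pm) h d J
  unfold GG at ha ⊢
  push_cast
  set H : ℝ := (1 + K) * (1 + Pm) * (1 + Pm * V1) with hHd
  have h0 : 0 ≤ (J : ℝ) * H := mul_nonneg hJ (by linarith)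
  have h1 : (J : ℝ) * H ≤ (J + 1) * H := by linarith
  have h2 : ((J : ℝ) * H) ^ (d + 1) ≤ ((J + 1) * H) ^ (d + 1) := pow_le_pow_left₀ h0 h1 _
  have h3 : 1 ≤ (((J : ℝ) + 1) * H) ^ (d + 1) := one_le_pow₀ (by nlinarith)
  have h4 := gsu_arith (v := V1) hK hP (by linarith) ha h3 h2
  rw [← hHd] at h4
  have h5 : (((J : ℝ) + 1) * H) ^ (d + 1 + 1) = (((J : ℝ) + 1) * H) ^ (d + 1) * (J * H) +
      H * (((J : ℝ) + 1) * H) ^ (d + 1) := by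
    rw [pow_succ (((J : ℝ) + 1) * H) (d + 1)]
    ring
  have h6 : ((J : ℝ) * H) ^ (d + 1 + 1) ≤ (((J : ℝ) + 1) * H) ^ (d + 1) * (J * H) := by
    rw [pow_succ ((J : ℝ) * H) (d + 1)]
    exact mul_le_mul_of_nonneg_right h2 h0
  rw [h5]
  linarith

theorem gg_mono (h : 1 ≤ V1) (d : ℕ) {J J' : ℕ} (hJ : J ≤ J') : GG K Pm V1 d J ≤ GG K Pm V1 d J' := by
  have hH := gsu_H0 K Pm h
  have h1 : (J : ℝ) ≤ J' := Nat.cast_le.2 hJ
  have h2 : (0 : ℝ) ≤ J := Nat.cast_nonneg J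
  unfold GG
  exact pow_le_pow_left₀ (mul_nonneg h2 (by linarith)) (mul_le_mul_of_nonneg_right h1 (by linarith)) _

end SYS.CH
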