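import Pool.Agent.SYS.CH.Defs

/-!
# SYS-CH-Low: one chain bounds the sum over the chains from below

In every case one term of the definition of `Z (J + 1)` is kept.
-/

namespace SYS.CH

open Classical SST SYS.Num

variable {D : Type} [Fintype D] {B : Blk} {κ : ℝ} {pr : ℕ → ℝ} {τ : ℕ} {m : Fin τ → D} {T : Tri D}

private noncomputable def lw1 (B : Blk) (κ : ℝ) (pr : ℕ → ℝ) (m : Fin τ → D) (T : Tri D) (J c s : ℕ) (X : Part D) (f : D)
    (X' : Part D) : ℝ :=
  if PE B T X f X' then
    (if Gl m c X' then 1 else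
      Real.exp (-(κ * pr (X.per f))) * (∑ e : D, if e ∈ X'.B ∧ e ∉ X.B then Z B κ pr m T J c s X' e else 0) +
      (if s = 0 then 0 else ∑ e : D, if e ∈ X'.B then Z B κ pr m T J c (s - 1) X' e else 0)) else 0

private noncomputable def lw2 (B : Blk) (κ : ℝ) (pr : ℕ → ℝ) (m : Fin τ → D) (T : Tri D) (J c s : ℕ) (X : Part D) (f : D)
    (X' : Part D) : ℝ :=
  if c = 0 ∧ NE B T X f X' then
    (if Gl m 1 X' then 1 else ∑ e : D, if e ∈ X'.B then Z B κ pr m T J 1 s X' e else 0) else 0

private theorem lw_eq (J c s : ℕ) (X : Part D) (f : D) : Z B κ pr m T (J + 1) c s X f =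
    (∑ X' : Part D, lw1 B κ pr m T J c s X f X') + (∑ X' : Part D, lw2 B κ pr m T J c s X f X') +
      (if TE B c T X f then 1 else 0) := rfl

private theorem lw1_nn {J : ℕ} (h : ∀ c s X f, 0 ≤ Z B κ pr m T J c s X f) (c s : ℕ) (X : Part D) (f : D)
    (X' : Part D) : 0 ≤ lw1 B κ pr m T J c s X f X' := by
  unfold lw1
  by_cases h1 : PE B T X f X'
  · rw [if_pos h1]
    by_cases h2 : Gl m c X'
    · rw [if_pos h2]
      exact zero_le_one
    · rw [if_neg h2]
      refine add_nonneg (mul_nonneg (Real.exp_nonneg _) (Finset.sum_nonneg fun e _ => ?_)) ?_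
      · by_cases h3 : e ∈ X'.B ∧ e ∉ X.B
        · rw [if_pos h3]
          exact h _ _ _ _
        · rw [if_neg h3]
      · by_cases h3 : s = 0
        · rw [if_pos h3]
        · rw [if_neg h3]
          refine Finset.sum_nonneg fun e _ => ?_
          by_cases h4 : e ∈ X'.B
          · rw [if_pos h4]
            exact h _ _ _ _
          · rw [if_neg h4]
  · rw [if_neg h1]

private theorem lw2_nn {J : ℕ} (h : ∀ c s X f, 0 ≤ Z B κ pr m T J c s X f) (c s : ℕ) (X : Part D) (f : D)
    (X' : Part D) : 0 ≤ lw2 B κ pr m T J c s X f X' := by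
  unfold lw2
  by_cases h1 : c = 0 ∧ NE B T X f X'
  · rw [if_pos h1]
    by_cases h2 : Gl m 1 X'
    · rw [if_pos h2]
      exact zero_le_one
    · rw [if_neg h2]
      refine Finset.sum_nonneg fun e _ => ?_
      by_cases h4 : e ∈ X'.B
      · rw [if_pos h4]
        exact h _ _ _ _
      · rw [if_neg h4]
  · rw [if_neg h1]

private theorem lw3_nn (c : ℕ) (X : Part D) (f : D) : (0 : ℝ) ≤ if TE B c T X f then 1 else 0 := by
  by_cases h1 : TE B c T X f
  · rw [if_pos h1]
    exact zero_le_one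
  · rw [if_neg h1]

private theorem lw_zn (J : ℕ) : ∀ (c s : ℕ) (X : Part D) (f : D), 0 ≤ Z B κ pr m T J c s X f := by
  induction J with
  | zero => exact fun c s X f => le_refl (0 : ℝ)
  | succ J ih =>
    intro c s X f
    rw [lw_eq]
    exact add_nonneg (add_nonneg (Finset.sum_nonneg fun X' _ => lw1_nn ih c s X f X')
      (Finset.sum_nonneg fun X' _ => lw2_nn ih c s X f X')) (lw3_nn c X f)

private theorem lw1_le (J c s : ℕ) (X : Part D) (f : D) (X' : Part D) :
    lw1 B κ pr m T J c s X f X' ≤ Z B κ pr m T (J + 1) c s X f := by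
  rw [lw_eq]
  have h1 : lw1 B κ pr m T J c s X f X' ≤ ∑ X' : Part D, lw1 B κ pr m T J c s X f X' :=
    Finset.single_le_sum (f := fun X' => lw1 B κ pr m T J c s X f X')
      (fun X' _ => lw1_nn (lw_zn J) c s X f X') (Finset.mem_univ X')
  have h2 : 0 ≤ ∑ X' : Part D, lw2 B κ pr m T J c s X f X' :=
    Finset.sum_nonneg fun X' _ => lw2_nn (lw_zn J) c s X f X'
  have h3 := lw3_nn (B := B) (T := T) c X f
  linarith

private theorem lw2_le (J c s : ℕ) (X : Part D) (f : D) (X' : Part D) :
    lw2 B κ pr m T J c s X f X' ≤ Z B κ pr m T (J + 1) c s X f := by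
  rw [lw_eq]
  have h1 : lw2 B κ pr m T J c s X f X' ≤ ∑ X' : Part D, lw2 B κ pr m T J c s X f X' :=
    Finset.single_le_sum (f := fun X' => lw2 B κ pr m T J c s X f X')
      (fun X' _ => lw2_nn (lw_zn J) c s X f X') (Finset.mem_univ X')
  have h2 : 0 ≤ ∑ X' : Part D, lw1 B κ pr m T J c s X f X' :=
    Finset.sum_nonneg fun X' _ => lw1_nn (lw_zn J) c s X f X'
  have h3 := lw3_nn (B := B) (T := T) c X f
  linarith

private theorem lw3_le (J c s : ℕ) (X : Part D) (f : D) :
    (if TE B c T X f then 1 else 0) ≤ Z B κ pr m T (J + 1) c s X f := by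
  rw [lw_eq]
  have h1 : 0 ≤ ∑ X' : Part D, lw2 B κ pr m T J c s X f X' :=
    Finset.sum_nonneg fun X' _ => lw2_nn (lw_zn J) c s X f X'
  have h2 : 0 ≤ ∑ X' : Part D, lw1 B κ pr m T J c s X f X' :=
    Finset.sum_nonneg fun X' _ => lw1_nn (lw_zn J) c s X f X'
  linarith

private theorem lw_sum (J c s : ℕ) (X' : Part D) (Q : D → Prop) [DecidablePred Q] {e : D} (he : Q e) :
    Z B κ pr m T J c s X' e ≤ ∑ e : D, if Q e then Z B κ pr m T J c s X' e else 0 := by
  have h1 : (if Q e then Z B κ pr m T J c s X' e else 0) ≤ ∑ e : D, if Q e then Z B κ pr m T J c s X' e else 0 := by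
    refine Finset.single_le_sum (f := fun e => if Q e then Z B κ pr m T J c s X' e else 0) (fun e _ => ?_)
      (Finset.mem_univ e)
    show 0 ≤ if Q e then Z B κ pr m T J c s X' e else 0
    by_cases h4 : Q e
    · rw [if_pos h4]
      exact lw_zn _ _ _ _ _
    · rw [if_neg h4]
  rw [if_pos he] at h1
  exact h1

private theorem lw_exp {κ v : ℝ} (hκ : 0 ≤ κ) (hv : 0 ≤ v) : Real.exp (-(κ * v)) ≤ 1 := by
  rw [Real.exp_le_one_iff]
  have := mul_nonneg hκ hv
  linarith

theorem z_nonneg (J c s : ℕ) (X : Part D) (f : D) : 0 ≤ Z B κ pr m T J c s X f := by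
  exact lw_zn J c s X f

theorem ch_nonneg (hpr : ∀ p, 0 ≤ pr p) {J c s : ℕ} {v : ℝ} {X : Part D} {f : D} (h : Ch B pr m T J c s v X f) : 0 ≤ v := by
  induction h with
  | fin h => exact le_refl _
  | plg h hg => exact le_refl _
  | pl h he he' hc ih => exact add_nonneg (hpr _) ih
  | jp h he hc ih => exact ih
  | nsg h hg => exact le_refl _
  | ns h he hc ih => exact ih

theorem z_ge (hκ : 0 ≤ κ) (hpr : ∀ p, 0 ≤ pr p) {J c s : ℕ} {v : ℝ} {X : Part D} {f : D} (h : Ch B pr m T J c s v X f) :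
    Real.exp (-(κ * v)) ≤ Z B κ pr m T J c s X f := by
  induction h with
  | @fin J c s X f h =>
    rw [mul_zero, neg_zero, Real.exp_zero]
    have h1 := lw3_le (B := B) (κ := κ) (pr := pr) (m := m) (T := T) J c s X f
    rw [if_pos h] at h1
    exact h1
  | @plg J c s X f X' h hg =>
    rw [mul_zero, neg_zero, Real.exp_zero]
    have h1 := lw1_le (B := B) (κ := κ) (pr := pr) (m := m) (T := T) J c s X f X'
    unfold lw1 at h1
    rw [if_pos h, if_pos hg] at h1
    exact h1
  | @pl J c s v X f X' e h he he' hc ih =>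
    have hv := ch_nonneg hpr hc
    have h1 := lw1_le (B := B) (κ := κ) (pr := pr) (m := m) (T := T) J c s X f X'
    by_cases hg : Gl m c X'
    · unfold lw1 at h1
      rw [if_pos h, if_pos hg] at h1
      exact (lw_exp hκ (add_nonneg (hpr _) hv)).trans h1
    · refine le_trans ?_ h1
      unfold lw1
      rw [if_pos h, if_neg hg]
      have h3 := lw_sum (B := B) (κ := κ) (pr := pr) (m := m) (T := T) J c s X' (fun e => e ∈ X'.B ∧ e ∉ X.B)
        (e := e) ⟨he, he'⟩
      have h4 : Real.exp (-(κ * (pr (X.per f) + v))) = Real.exp (-(κ * pr (X.per f))) * Real.exp (-(κ * v)) := by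
        rw [← Real.exp_add]
        congr 1
        ring
      rw [h4]
      have h5 := mul_le_mul_of_nonneg_left (ih.trans h3) (Real.exp_nonneg (-(κ * pr (X.per f))))
      refine h5.trans (le_add_of_nonneg_right ?_)
      by_cases h3 : s = 0
      · rw [if_pos h3]
      · rw [if_neg h3]
        refine Finset.sum_nonneg fun e _ => ?_
        by_cases h4 : e ∈ X'.B
        · rw [if_pos h4]
          exact lw_zn _ _ _ _ _
        · rw [if_neg h4]
  | @jp J c s v X f X' e h he hc ih =>
    have hv := ch_nonneg hpr hc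
    have h1 := lw1_le (B := B) (κ := κ) (pr := pr) (m := m) (T := T) J c (s + 1) X f X'
    by_cases hg : Gl m c X'
    · unfold lw1 at h1
      rw [if_pos h, if_pos hg] at h1
      exact (lw_exp hκ hv).trans h1
    · refine le_trans ?_ h1
      unfold lw1
      rw [if_pos h, if_neg hg, if_neg (Nat.succ_ne_zero s), Nat.add_sub_cancel]
      have h2 : 0 ≤ Real.exp (-(κ * pr (X.per f))) *
          (∑ e : D, if e ∈ X'.B ∧ e ∉ X.B then Z B κ pr m T J c (s + 1) X' e else 0) := by
        refine mul_nonneg (Real.exp_nonneg _) (Finset.sum_nonneg fun e _ => ?_)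
        by_cases h4 : e ∈ X'.B ∧ e ∉ X.B
        · rw [if_pos h4]
          exact lw_zn _ _ _ _ _
        · rw [if_neg h4]
      have h3 := lw_sum (B := B) (κ := κ) (pr := pr) (m := m) (T := T) J c s X' (fun e => e ∈ X'.B)
        (e := e) he
      exact (ih.trans h3).trans (le_add_of_nonneg_left h2)
  | @nsg J s X f X' h hg =>
    rw [mul_zero, neg_zero, Real.exp_zero]
    have h1 := lw2_le (B := B) (κ := κ) (pr := pr) (m := m) (T := T) J 0 s X f X'
    unfold lw2 at h1
    rw [if_pos ⟨rfl, h⟩, if_pos hg] at h1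
    exact h1
  | @ns J s v X f X' e h he hc ih =>
    have hv := ch_nonneg hpr hc
    have h1 := lw2_le (B := B) (κ := κ) (pr := pr) (m := m) (T := T) J 0 s X f X'
    by_cases hg : Gl m 1 X'
    · unfold lw2 at h1
      rw [if_pos ⟨rfl, h⟩, if_pos hg] at h1
      exact (lw_exp hκ hv).trans h1
    · refine le_trans ?_ h1
      unfold lw2
      rw [if_pos ⟨rfl, h⟩, if_neg hg]
      exact ih.trans (lw_sum (B := B) (κ := κ) (pr := pr) (m := m) (T := T) J 1 s X' (fun e => e ∈ X'.B)
        (e := e) he)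

end SYS.CH
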