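import Pool.Agent.SYS.CH.Defs

/-!
# SYS-CH-Nod: the nodes of a block (types)

PLAN.  Induction on the word (definition of `Part.BR`).
* `br_typ`: one step `Z.St d s Z₁ z₁` with `b Z = some d`, `d` in the hole of `z`: `typ_repl` (from `z` to `d`), then `st_typ`; see `rchg_typ` in `Reg/RchG`.
* `br_sub`: `st_sub`, `sub_trans`.
* `typ_B`: `HL`: the holes of the representatives partition `S.B` (see the proofs in `Lib/Typ`, `Lib/HL`, `SYS/LT/CntV`, `SYS/XP/CTyp` for the same count).
* `sc_F`: `vol`.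
* `sc_typ`: `Sc` gives `l`, `P`; `x` lies in the hole of one representative (`HL`): `typ_perm` to bring it to the front, `typ_repl`; the first perimeter is
  `S.per x` (`Typ.per`); the sum by `typ_B`.
-/

namespace SYS.CH

open Classical SST SYS.Num

variable {D : Type} [Finite D] {b : Part D → Option D} {S S' : Part D} {x z : D} {w : List Stp} {l : List D} {p : ℕ} {P : List ℕ}
  {F κ c : ℕ}

theorem br_typ (hS : S.Typ (x :: l) (p :: P) F κ) (h : Part.BR b S x w S' z) :
    WOk p w ∧ ∃ F', F' + wvol w = F ∧ S'.Typ (z :: l) (wend p w :: P) F' κ := by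
  induction w generalizing S x p F with
  | nil =>
    obtain ⟨rfl, rfl⟩ := h
    exact ⟨trivial, F, rfl, hS⟩
  | cons s w ih =>
    obtain ⟨d, S₁, z₁, h1, h2, h3, h4, h5⟩ := h
    obtain ⟨hok, F₁, hF₁, hT⟩ := Part.st_typ (Part.typ_repl hS h2 h3) h4
    obtain ⟨hok', F', hF', hT'⟩ := ih hT h5
    refine ⟨⟨hok, hok'⟩, F', ?_, hT'⟩
    rw [wvol_cons]
    omega

theorem br_sub (h : Part.BR b S x w S' z) : S.Sub S' := by
  induction w generalizing S x with
  | nil =>
    obtain ⟨rfl, rfl⟩ := h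
    exact Part.sub_refl _
  | cons s w ih =>
    obtain ⟨d, S₁, z₁, h1, h2, h3, h4, h5⟩ := h
    exact Part.sub_trans (Part.st_sub h4).1 (ih h5)

theorem typ_B (hS : S.Typ l P F κ) : S.B.ncard = P.sum := by
  rw [← hS.per]
  exact Part.hl_card hS.hl

theorem sc_F (hS : Sc c S F) : S.R.ncard + 3 * F = Nat.card D := by
  obtain ⟨-, l, P, hT, -⟩ := hS
  exact hT.vol

/-- A region with a given first boundary dart. -/
theorem sc_typ (hS : Sc c S F) (hx : x ∈ S.B) : ∃ l P, l.length = c ∧ S.Typ (x :: l) (S.per x :: P) F c ∧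
    S.per x + P.sum = S.B.ncard := by
  obtain ⟨-, l, P, hT, hl⟩ := hS
  obtain ⟨e, he, hs⟩ := hT.hl.2.2 x hx
  obtain ⟨l1, l2, rfl⟩ := List.append_of_mem he
  have h1 : (l1 ++ e :: l2).Perm (e :: (l1 ++ l2)) := List.perm_middle
  have h3 := Part.typ_repl (Part.typ_perm hT h1) hx hs
  have h4 : S.Typ (x :: (l1 ++ l2)) (S.per x :: (l1 ++ l2).map S.per) F c := by
    rw [← Part.per_same S hs]
    exact h3
  refine ⟨l1 ++ l2, (l1 ++ l2).map S.per, ?_, h4, ?_⟩
  · rw [List.length_append, List.length_cons] at hl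
    rw [List.length_append]
    omega
  · rw [typ_B h4, List.sum_cons]

end SYS.CH
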