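import Pool.Agent.SYS.CH.Nod
import Pool.Agent.SYS.UP.RchC

/-!
# SYS-CH-NodC: the nodes of a block are connected regions

PLAN.
* `st_con`: `T`: `face`: the three new darts are connected with `d` by the new edge (`cn_sub` keeps the old relations); `L`, `R`: `glue` keeps the
  relations (`cn_sub`), `DiscFill`: either nothing changes or `FillBy`: the new darts are connected with the boundary of the hole (`fil_cn`; compare how
  `tc` is proved in `Lib/Typ` and `Con` of the results in `SYS/LR`, `SYS/LT/StG`, `SYS/LO`).
* `br_con`: induction on the word.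
* `sc_node`: `sc_typ` for `x`, `br_typ`, `br_con`; `|S'.B| = wend p w + P.sum` (`typ_B`), `wend p w ≤ p + w.length` (a step `T` adds 1, the others
  decrease the perimeter).
-/

namespace SYS.CH

open Classical SST SYS.Num

variable {D : Type} [Finite D] {b : Part D → Option D} {S S' : Part D} {x z : D} {s : Stp} {w : List Stp} {F c : ℕ}

theorem st_con (hc : S.Con) (h : S.St x s S' z) : S'.Con := UP.st_con h hc

theorem br_con (hc : S.Con) (h : Part.BR b S x w S' z) : S'.Con := by
  induction w generalizing S x with
  | nil =>
    obtain ⟨rfl, rfl⟩ := h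
    exact hc
  | cons s w ih =>
    obtain ⟨d, S₁, z₁, h1, h2, h3, h4, h5⟩ := h
    exact ih (st_con hc h4) h5

private theorem wend_le (p : ℕ) (w : List Stp) : wend p w ≤ p + w.length := by
  induction w generalizing p with
  | nil => exact le_of_eq rfl
  | cons s w ih =>
    rw [wend_cons, List.length_cons]
    have h1 := ih (s.nx p)
    have h2 : s.nx p ≤ p + 1 := by
      cases s with
      | T => exact le_of_eq rfl
      | L k a =>
        show p - (k + 2) ≤ p + 1
        omega
      | R k a =>
        show p - (k + 2) ≤ p + 1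
        omega
    omega

theorem sc_node (hS : Sc c S F) (hx : x ∈ S.B) (h : Part.BR b S x w S' z) : ∃ F', F' + wvol w = F ∧ Sc c S' F' ∧
    S'.B.ncard ≤ S.B.ncard + w.length := by
  obtain ⟨l, P, hl, hT, hB⟩ := sc_typ hS hx
  obtain ⟨-, F', hF', hT'⟩ := br_typ hT h
  refine ⟨F', hF', ⟨br_con hS.1 h, z :: l, _, hT', by rw [List.length_cons, hl]⟩, ?_⟩
  rw [typ_B hT', List.sum_cons]
  have h1 := wend_le (S.per x) w
  omega

end SYS.CH
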