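import Pool.Agent.SYS.CH.BdA
import Pool.Agent.SYS.CH.BdB
import Pool.Agent.SYS.CH.NodC
import Pool.Agent.SYS.CH.Gsu

/-!
# SYS-CH-Upr: the first moment of the chains
-/

namespace SYS.CH

open Classical SST SYS.Num

variable {n g Pm Vm τ : ℕ} {B : Blk} {x κ : ℝ} {pr V : ℕ → ℝ} {V1 N0 : ℝ}

private theorem sum_pred (Y : Part (Fin (6 * n))) (P : Fin (6 * n) → Prop) [DecidablePred P] (φ : Fin (6 * n) → ℝ) {C : ℝ}
    (hC : 0 ≤ C) (hP : ∀ e, P e → e ∈ Y.B) (h : ∀ e, P e → φ e ≤ C) (hb : Y.B.ncard ≤ Pm) :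
    (∑ e, if P e then φ e else 0) ≤ Pm * C := by
  have h1 : (∑ e, if P e then φ e else 0) ≤ ∑ e, (if P e then C else 0) := by
    refine Finset.sum_le_sum fun e _ => ?_
    split_ifs with he
    · exact h e he
    · exact le_refl _
  refine h1.trans ?_
  rw [← Finset.sum_filter, Finset.sum_const, nsmul_eq_mul]
  have h2 : (Finset.univ.filter P).card ≤ Pm := by
    refine le_trans ?_ hb
    rw [← Set.ncard_coe_finset]
    refine Set.ncard_le_ncard ?_ (Set.toFinite _)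
    intro e he
    rw [Finset.mem_coe, Finset.mem_filter] at he
    exact hP e he.2
  have h3 : ((Finset.univ.filter P).card : ℝ) ≤ Pm := by exact_mod_cast h2
  exact mul_le_mul_of_nonneg_right h3 hC

/-- ends of the block -/
private theorem cx_sc {c F J : ℕ} (hB : B.Ok) {X X' : Part (Fin (6 * n))} {f : Fin (6 * n)} (hS : Sc c X F) (hf : f ∈ X.B)
    (hb : X.B.ncard + B.K * (J + 1) ≤ Pm) (hX' : X' ∈ CX B X f) : ∃ F', Sc c X' F' ∧ X'.B.ncard + B.K * J ≤ Pm := by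
  obtain ⟨w, x', hq⟩ := mem_CX.1 hX'
  obtain ⟨F', -, h1, h2⟩ := sc_node hS hf hq.1
  have h3 := cpl_len hB hf hq
  dsimp only at h2 h3
  refine ⟨F', h1, ?_⟩
  rw [Nat.mul_succ] at hb
  omega

/-- nodes of the block -/
private theorem nx_sc {c F J : ℕ} (hB : B.Ok) {X : Part (Fin (6 * n))} {a : Part (Fin (6 * n)) × Fin (6 * n)} {f : Fin (6 * n)}
    (hS : Sc c X F) (hf : f ∈ X.B) (hb : X.B.ncard + B.K * (J + 1) ≤ Pm) (ha : a ∈ NX B X f) :
    a.2 ∈ a.1.B ∧ ∃ F', Sc c a.1 F' ∧ a.1.B.ncard + B.K * J ≤ Pm := by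
  obtain ⟨w, z, hq⟩ := mem_NX.1 ha
  obtain ⟨F', -, h1, h2⟩ := sc_node hS hf hq.1
  have h3 := hB.len X f _ _ hf hq
  dsimp only at h2 h3
  refine ⟨hq.2.2.1, F', h1, ?_⟩
  rw [Nat.mul_succ] at hb
  omega

private theorem gl_gate {Y : Part (Fin (6 * n))} {y z : Fin (6 * n)} (h : NG Y y z) : z ∈ Y.B := by
  obtain ⟨T, -, rfl, u, v, h⟩ := h
  obtain ⟨-, -, -, hx, hy, -⟩ := h
  exact hy

private theorem pm_le {a b K J : ℕ} (h : a + K * J ≤ b) : a ≤ b := by omega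

private theorem step_D (hI : Inp n g x κ B pr V V1 Pm Vm τ N0) (hx : 0 < x) (hB : B.Ok) {J s F : ℕ} {X : Part (Fin (6 * n))}
    {f : Fin (6 * n)} (hS : Sc 0 X F) (hf : f ∈ X.B) (hb : X.B.ncard + B.K * (J + 1) ≤ Pm) (h1 : 1 ≤ V1)
    (ih : ∀ (F : ℕ) (X : Part (Fin (6 * n))) (f : Fin (6 * n)), Sc 1 X F → f ∈ X.B → X.B.ncard + B.K * J ≤ Pm →
      SS g Pm Vm τ B κ pr J 1 s X f ≤ GG B.K Pm V1 s J * V1 * Wt x X * N0) :
    (∑ a ∈ NX B X f, ∑ z, (if NG a.1 a.2 z then GT g Pm Vm τ 1 (gl a.1 a.2 z) +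
        (∑ e, if e ∈ (gl a.1 a.2 z).B then SS g Pm Vm τ B κ pr J 1 s (gl a.1 a.2 z) e else 0) else 0)) ≤
      B.K * Pm * (1 + Pm * V1 * GG B.K Pm V1 s J) * (N0 * Wt x X) := by
  have hG := gg_nonneg (K := B.K) (Pm := Pm) h1 s J
  have hN := hI.n0
  have hV1 : 0 ≤ V1 := le_trans zero_le_one h1
  have hC0 : 0 ≤ 1 + Pm * V1 * GG B.K Pm V1 s J := by positivity
  have key : ∀ a ∈ NX B X f, ∑ z, (if NG a.1 a.2 z then GT g Pm Vm τ 1 (gl a.1 a.2 z) +
        (∑ e, if e ∈ (gl a.1 a.2 z).B then SS g Pm Vm τ B κ pr J 1 s (gl a.1 a.2 z) e else 0) else 0) ≤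
      Pm * ((1 + Pm * V1 * GG B.K Pm V1 s J) * N0 * Wt x a.1) := by
    intro a ha
    obtain ⟨hy, F', hS', hb'⟩ := nx_sc hB hS hf hb ha
    have hW := wt_pos hx a.1
    refine sum_pred a.1 (fun z => NG a.1 a.2 z) _ (by positivity) (fun z hz => gl_gate hz) (fun z hz => ?_) (pm_le hb')
    obtain ⟨T, hT, rfl, u, v, hN'⟩ := hz
    obtain ⟨k1, k2, -, -, -⟩ := gl_sc hS' hT hN'
    have k3 := wt_gl hx hS' hT hN'
    have hWg := wt_pos hx (gl a.1 a.2 (T.a a.2))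
    have hbg : (gl a.1 a.2 (T.a a.2)).B.ncard + B.K * J ≤ Pm := by omega
    have e1 : GT g Pm Vm τ 1 (gl a.1 a.2 (T.a a.2)) ≤ N0 * Wt x a.1 :=
      (gt_le hI hx (le_refl 1) k1 (pm_le hbg)).trans (mul_le_mul_of_nonneg_left k3 hN)
    have e2 : (∑ e, if e ∈ (gl a.1 a.2 (T.a a.2)).B then SS g Pm Vm τ B κ pr J 1 s (gl a.1 a.2 (T.a a.2)) e else 0) ≤
        Pm * (GG B.K Pm V1 s J * V1 * Wt x a.1 * N0) := by
      refine sum_pred (gl a.1 a.2 (T.a a.2)) (fun e => e ∈ (gl a.1 a.2 (T.a a.2)).B) _ (by positivity) (fun e he => he)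
        (fun e he => ?_) (pm_le hbg)
      refine (ih F' _ e k1 he hbg).trans ?_
      exact mul_le_mul_of_nonneg_right (mul_le_mul_of_nonneg_left k3 (by positivity)) hN
    refine (add_le_add e1 e2).trans (le_of_eq ?_)
    ring
  refine (Finset.sum_le_sum key).trans ?_
  rw [← Finset.mul_sum, ← Finset.mul_sum]
  have h2 := nx_wt hx hB hS hf
  calc (Pm : ℝ) * ((1 + Pm * V1 * GG B.K Pm V1 s J) * N0 * ∑ a ∈ NX B X f, Wt x a.1) ≤
        Pm * ((1 + Pm * V1 * GG B.K Pm V1 s J) * N0 * (B.K * Wt x X)) :=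
        mul_le_mul_of_nonneg_left (mul_le_mul_of_nonneg_left h2 (by positivity)) (Nat.cast_nonneg _)
    _ = _ := by ring

private theorem step_C (hI : Inp n g x κ B pr V V1 Pm Vm τ N0) (hx : 0 < x) (hB : B.Ok) {J c s d F : ℕ} {X : Part (Fin (6 * n))}
    {f : Fin (6 * n)} (hS : Sc c X F) (hf : f ∈ X.B) (hb : X.B.ncard + B.K * (J + 1) ≤ Pm) (h1 : 1 ≤ V1)
    (ih : ∀ (F : ℕ) (X : Part (Fin (6 * n))) (f : Fin (6 * n)), Sc c X F → f ∈ X.B → X.B.ncard + B.K * J ≤ Pm →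
      SS g Pm Vm τ B κ pr J c s X f ≤ GG B.K Pm V1 d J * V1 * Wt x X * N0) :
    (∑ X' ∈ CX B X f, ∑ e, if e ∈ X'.B then SS g Pm Vm τ B κ pr J c s X' e else 0) ≤
      Pm * V1 * GG B.K Pm V1 d J * (N0 * Wt x X) := by
  have hG := gg_nonneg (K := B.K) (Pm := Pm) h1 d J
  have hN := hI.n0
  have hV1 : 0 ≤ V1 := le_trans zero_le_one h1
  have key : ∀ X' ∈ CX B X f, (∑ e, if e ∈ X'.B then SS g Pm Vm τ B κ pr J c s X' e else 0) ≤
      Pm * V1 * GG B.K Pm V1 d J * N0 * Wt x X' := by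
    intro X' hX'
    obtain ⟨F', hS', hb'⟩ := cx_sc hB hS hf hb hX'
    have hW := wt_pos hx X'
    have e1 := sum_pred X' (fun e => e ∈ X'.B) (fun e => SS g Pm Vm τ B κ pr J c s X' e)
      (C := GG B.K Pm V1 d J * V1 * Wt x X' * N0) (by positivity) (fun e he => he)
      (fun e he => ih F' X' e hS' he hb') (pm_le hb')
    refine e1.trans (le_of_eq ?_)
    ring
  refine (Finset.sum_le_sum key).trans ?_
  rw [← Finset.mul_sum]
  have h2 := cx_wt (B := B) hx hS hf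
  calc (Pm : ℝ) * V1 * GG B.K Pm V1 d J * N0 * ∑ X' ∈ CX B X f, Wt x X' ≤
        Pm * V1 * GG B.K Pm V1 d J * N0 * Wt x X := mul_le_mul_of_nonneg_left h2 (by positivity)
    _ = _ := by ring

private theorem step_E (hI : Inp n g x κ B pr V V1 Pm Vm τ N0) (hx : 0 < x) (hB : B.Ok) {J c F : ℕ} (hc : c ≤ 1)
    {X : Part (Fin (6 * n))} {f : Fin (6 * n)} (hS : Sc c X F) (hf : f ∈ X.B) (hb : X.B.ncard + B.K * (J + 1) ≤ Pm) :
    (∑ a ∈ NX B X f, TT g Pm Vm τ c a.1 a.2) ≤ B.K * (N0 * Wt x X) := by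
  have hN := hI.n0
  have key : ∀ a ∈ NX B X f, TT g Pm Vm τ c a.1 a.2 ≤ N0 * Wt x a.1 := by
    intro a ha
    obtain ⟨hy, F', hS', hb'⟩ := nx_sc hB hS hf hb ha
    exact tt_le hI hx hc hS' hy (pm_le hb')
  refine (Finset.sum_le_sum key).trans ?_
  rw [← Finset.mul_sum]
  have h2 := nx_wt hx hB hS hf
  calc N0 * ∑ a ∈ NX B X f, Wt x a.1 ≤ N0 * (B.K * Wt x X) := mul_le_mul_of_nonneg_left h2 hN
    _ = _ := by ring

private theorem step_A (hI : Inp n g x κ B pr V V1 Pm Vm τ N0) (hx : 0 < x) (hB : B.Ok) {J c F : ℕ} (hc : c ≤ 1)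
    {X : Part (Fin (6 * n))} {f : Fin (6 * n)} (hS : Sc c X F) (hf : f ∈ X.B) (hb : X.B.ncard + B.K * (J + 1) ≤ Pm) :
    (∑ X' ∈ CX B X f, GT g Pm Vm τ c X') ≤ N0 * Wt x X := by
  have hN := hI.n0
  have key : ∀ X' ∈ CX B X f, GT g Pm Vm τ c X' ≤ N0 * Wt x X' := by
    intro X' hX'
    obtain ⟨F', hS', hb'⟩ := cx_sc hB hS hf hb hX'
    exact gt_le hI hx hc hS' (pm_le hb')
  refine (Finset.sum_le_sum key).trans ?_
  rw [← Finset.mul_sum]
  exact mul_le_mul_of_nonneg_left (cx_wt hx hS hf) hN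

theorem upper (hI : Inp n g x κ B pr V V1 Pm Vm τ N0) (hx : 0 < x) (hB : B.Ok) (J c s F : ℕ) (hc : c ≤ 1) {X : Part (Fin (6 * n))}
    {f : Fin (6 * n)} (hS : Sc c X F) (hf : f ∈ X.B) (hb : X.B.ncard + B.K * J ≤ Pm) :
    SS g Pm Vm τ B κ pr J c s X f ≤ GG B.K Pm V1 (s + 1 - c) J * V (X.per f) * Wt x X * N0 := by
  have hN := hI.n0
  have h1 : 1 ≤ V1 := (hI.v1 0).1.trans (hI.v1 0).2
  have hV1 : 0 ≤ V1 := le_trans zero_le_one h1
  induction J generalizing c s F X f with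
  | zero =>
    rw [ss_zero]
    have hG := gg_nonneg (K := B.K) (Pm := Pm) h1 (s + 1 - c) 0
    have hW := wt_pos hx X
    have hV := (hI.v1 (X.per f)).1
    have hV0 : 0 ≤ V (X.per f) := le_trans zero_le_one hV
    positivity
  | succ J ih =>
    have hG := gg_nonneg (K := B.K) (Pm := Pm) h1 (s + 1 - c) J
    have hG' := gg_nonneg (K := B.K) (Pm := Pm) h1 (s + 1 - c) (J + 1)
    have hW := wt_pos hx X
    obtain ⟨W, hWd⟩ : ∃ W, W = Wt x X := ⟨_, rfl⟩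
    obtain ⟨v, hv⟩ : ∃ v, v = V (X.per f) := ⟨_, rfl⟩
    have hV : 1 ≤ v := hv ▸ (hI.v1 (X.per f)).1
    have hV0 : 0 ≤ v := le_trans zero_le_one hV
    rw [← hv]
    by_cases hA : (AX g Pm Vm X).Nonempty
    swap
    · rw [Finset.not_nonempty_iff_eq_empty] at hA
      have h2 : SS g Pm Vm τ B κ pr (J + 1) c s X f = 0 := by
        unfold SS
        rw [hA]
        simp
      rw [h2]
      positivity
    obtain ⟨T, hT⟩ := hA
    obtain ⟨hT1, hT2, hT3⟩ := mem_AX.1 hT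
    have hXP : X.B.ncard ≤ Pm := pm_le hb
    have h2n := hT1.2 c F X hc hS hT2 hT3 hXP
    have ih' : ∀ (c s : ℕ) (_ : c ≤ 1) (F : ℕ) (X : Part (Fin (6 * n))) (f : Fin (6 * n)), Sc c X F → f ∈ X.B →
        X.B.ncard + B.K * J ≤ Pm →
        SS g Pm Vm τ B κ pr J c s X f ≤ GG B.K Pm V1 (s + 1 - c) J * V1 * Wt x X * N0 := by
      intro c s hc F X f hS hf hb
      refine (ih c s F hc hS hf hb).trans ?_
      have h3 := gg_nonneg (K := B.K) (Pm := Pm) h1 (s + 1 - c) J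
      have h4 := wt_pos hx X
      have h5 := (hI.v1 (X.per f)).2
      exact mul_le_mul_of_nonneg_right (mul_le_mul_of_nonneg_right (mul_le_mul_of_nonneg_left h5 h3) h4.le) hN
    -- the parts
    have pA := step_A hI hx hB hc hS hf hb
    have pB : ∑ X' ∈ CX B X f, Real.exp (-(κ * pr (X.per f))) *
        (∑ e, if e ∈ X'.B ∧ e ∉ X.B then SS g Pm Vm τ B κ pr J c s X' e else 0) ≤
          GG B.K Pm V1 (s + 1 - c) J * N0 * V (X.per f) * Wt x X := by
      refine planar_le hI hx hS hf h2n hXP (Φ := fun X' e => SS g Pm Vm τ B κ pr J c s X' e) (by positivity) ?_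
      intro X' hX' e he
      obtain ⟨F', hS', hb'⟩ := cx_sc hB hS hf hb hX'
      refine (ih c s F' hc hS' he hb').trans (le_of_eq ?_)
      ring
    have pE := step_E hI hx hB hc hS hf hb
    have hsucc := ss_succ (g := g) (Pm := Pm) (Vm := Vm) (τ := τ) (B := B) (κ := κ) (pr := pr) J c s X f
    rw [Finset.sum_add_distrib, Finset.sum_add_distrib] at hsucc
    rw [← hv] at pB
    rw [← hWd] at pA pB pE hW ⊢
    have hNW : 0 ≤ N0 * W := by positivity
    rcases Nat.eq_zero_or_pos s with hs | hs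
    · subst hs
      have pC : (∑ X' ∈ CX B X f, (if 0 = 0 then 0 else
          ∑ e, if e ∈ X'.B then SS g Pm Vm τ B κ pr J c (0 - 1) X' e else 0)) = 0 := by
        refine Finset.sum_eq_zero fun X' _ => ?_
        rw [if_pos rfl]
      rw [pC] at hsucc
      rcases Nat.eq_zero_or_pos c with hc0 | hc0
      · subst hc0
        rw [if_pos rfl] at hsucc
        have pD := step_D hI hx hB hS hf hb h1 (s := 0) (fun F X f h3 h4 h5 => ih' 1 0 (le_refl 1) F X f h3 h4 h5)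
        rw [← hWd] at pD
        have hg := gsu_succ (K := B.K) (Pm := Pm) h1 0 J
        have hg0 := gg_nonneg (K := B.K) (Pm := Pm) h1 0 J
        obtain ⟨G0, hG0⟩ : ∃ G0, G0 = GG B.K Pm V1 0 J := ⟨_, rfl⟩
        have e0 : 0 + 1 - 0 = 0 + 1 := rfl
        rw [e0] at pB hG ⊢
        obtain ⟨G1, hG1⟩ : ∃ G1, G1 = GG B.K Pm V1 (0 + 1) J := ⟨_, rfl⟩
        obtain ⟨G2, hG2⟩ : ∃ G2, G2 = GG B.K Pm V1 (0 + 1) (J + 1) := ⟨_, rfl⟩
        rw [← hG0] at pD hg hg0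
        rw [← hG1] at pB hG hg
        rw [← hG2] at hg ⊢
        have h6 : N0 * W + (G1 * N0 * v * W + 0) + B.K * Pm * (1 + Pm * V1 * G0) * (N0 * W) + B.K * (N0 * W) ≤
            G2 * v * W * N0 := by
          have h7 : 0 ≤ (B.K : ℝ) * Pm * (1 + Pm * V1 * G0) := by positivity
          have h8 : 0 ≤ (Pm : ℝ) * V1 * G0 := by positivity
          have h9 : 0 ≤ (B.K : ℝ) := Nat.cast_nonneg _
          have h10 : (1 + B.K + B.K * Pm * (1 + Pm * V1 * G0)) ≤ (1 + B.K + B.K * Pm * (1 + Pm * V1 * G0)) * v :=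
            le_mul_of_one_le_right (by positivity) hV
          have h11 : 1 + G1 * v + B.K * Pm * (1 + Pm * V1 * G0) + B.K ≤ G2 * v := by
            have h12 : (G1 + 1 + B.K + Pm * V1 * G0 + B.K * Pm * (1 + Pm * V1 * G0)) * v ≤ G2 * v :=
              mul_le_mul_of_nonneg_right hg hV0
            have h13 : 0 ≤ Pm * V1 * G0 * v := by positivity
            nlinarith
          have h14 := mul_le_mul_of_nonneg_right h11 hNW
          nlinarith
        linarith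
      · have hc1 : c = 1 := by omega
        subst hc1
        rw [if_neg (by omega)] at hsucc
        have hg := gsu_zero (K := B.K) (Pm := Pm) h1 J
        have e0 : 0 + 1 - 1 = 0 := rfl
        rw [e0] at pB hG ⊢
        obtain ⟨G1, hG1⟩ : ∃ G1, G1 = GG B.K Pm V1 0 J := ⟨_, rfl⟩
        obtain ⟨G2, hG2⟩ : ∃ G2, G2 = GG B.K Pm V1 0 (J + 1) := ⟨_, rfl⟩
        rw [← hG1] at pB hG hg
        rw [← hG2] at hg ⊢
        have h6 : N0 * W + (G1 * N0 * v * W + 0) + 0 + B.K * (N0 * W) ≤ G2 * v * W * N0 := by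
          have h9 : 0 ≤ (B.K : ℝ) := Nat.cast_nonneg _
          have h10 : (1 + B.K : ℝ) ≤ (1 + B.K) * v := le_mul_of_one_le_right (by positivity) hV
          have h11 : 1 + G1 * v + B.K ≤ G2 * v := by
            have h12 : (G1 + 1 + B.K) * v ≤ G2 * v := mul_le_mul_of_nonneg_right hg hV0
            nlinarith
          have h14 := mul_le_mul_of_nonneg_right h11 hNW
          nlinarith
        linarith
    · have hs0 : s ≠ 0 := by omega
      have pC' : (∑ X' ∈ CX B X f, (if s = 0 then 0 else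
          ∑ e, if e ∈ X'.B then SS g Pm Vm τ B κ pr J c (s - 1) X' e else 0)) =
          ∑ X' ∈ CX B X f, ∑ e, if e ∈ X'.B then SS g Pm Vm τ B κ pr J c (s - 1) X' e else 0 := by
        refine Finset.sum_congr rfl fun X' _ => ?_
        rw [if_neg hs0]
      rw [pC'] at hsucc
      have pC := step_C hI hx hB hS hf hb h1 (s := s - 1) (d := s - 1 + 1 - c)
        (fun F X f h3 h4 h5 => ih' c (s - 1) hc F X f h3 h4 h5)
      obtain ⟨d, hd⟩ : ∃ d, d = s - 1 + 1 - c := ⟨_, rfl⟩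
      have hd1 : s + 1 - c = d + 1 := by omega
      rw [← hd, ← hWd] at pC
      rw [hd1] at pB hG hG' ⊢
      have hg := gsu_succ (K := B.K) (Pm := Pm) h1 d J
      have hg0 := gg_nonneg (K := B.K) (Pm := Pm) h1 d J
      obtain ⟨D, hD, hDle⟩ : ∃ D : ℝ, (if c = 0 then ∑ a ∈ NX B X f, ∑ z, (if NG a.1 a.2 z then GT g Pm Vm τ 1 (gl a.1 a.2 z) +
        (∑ e, if e ∈ (gl a.1 a.2 z).B then SS g Pm Vm τ B κ pr J 1 s (gl a.1 a.2 z) e else 0) else 0) else 0) = D ∧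
          D ≤ B.K * Pm * (1 + Pm * V1 * GG B.K Pm V1 d J) * (N0 * W) := by
        refine ⟨_, rfl, ?_⟩
        rcases Nat.eq_zero_or_pos c with hc0 | hc0
        · subst hc0
          rw [if_pos rfl]
          have hds : d = s := by omega
          rw [hds, hWd]
          exact step_D hI hx hB hS hf hb h1 (fun F X f h3 h4 h5 => ih' 1 s (le_refl 1) F X f h3 h4 h5)
        · rw [if_neg (by omega)]
          positivity
      rw [hD] at hsucc
      obtain ⟨G0, hG0⟩ : ∃ G0, G0 = GG B.K Pm V1 d J := ⟨_, rfl⟩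
      obtain ⟨G1, hG1⟩ : ∃ G1, G1 = GG B.K Pm V1 (d + 1) J := ⟨_, rfl⟩
      obtain ⟨G2, hG2⟩ : ∃ G2, G2 = GG B.K Pm V1 (d + 1) (J + 1) := ⟨_, rfl⟩
      rw [← hG0] at pC hg hg0 hDle
      rw [← hG1] at pB hG hg
      rw [← hG2] at hg ⊢
      have h6 : N0 * W + G1 * N0 * v * W + Pm * V1 * G0 * (N0 * W) + B.K * Pm * (1 + Pm * V1 * G0) * (N0 * W) + B.K * (N0 * W) ≤
          G2 * v * W * N0 := by
        have h7 : 0 ≤ (B.K : ℝ) * Pm * (1 + Pm * V1 * G0) := by positivity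
        have h8 : 0 ≤ (Pm : ℝ) * V1 * G0 := by positivity
        have h9 : 0 ≤ (B.K : ℝ) := Nat.cast_nonneg _
        have h10 : (1 + B.K + Pm * V1 * G0 + B.K * Pm * (1 + Pm * V1 * G0)) ≤
            (1 + B.K + Pm * V1 * G0 + B.K * Pm * (1 + Pm * V1 * G0)) * v :=
          le_mul_of_one_le_right (by positivity) hV
        have h11 : 1 + G1 * v + Pm * V1 * G0 + B.K * Pm * (1 + Pm * V1 * G0) + B.K ≤ G2 * v := by
          have h12 : (G1 + 1 + B.K + Pm * V1 * G0 + B.K * Pm * (1 + Pm * V1 * G0)) * v ≤ G2 * v :=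
            mul_le_mul_of_nonneg_right hg hV0
          nlinarith
        have h14 := mul_le_mul_of_nonneg_right h11 hNW
        nlinarith
      linarith

end SYS.CH
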